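import Mathlib

/-!
# Strong Ramsey games with passes of the second player (MP_2d204b_co): definitions

`V` is the vertex set of the board `G`, `H` the target.  Edges are elements of `Sym2 V`.
P1 moves first; P2 may pass.  A play is described by the list of the replies of P2 in
chronological order (`none` is a pass); the moves of P1 are given by his strategy.
-/

set_option autoImplicit false

namespace Pool.Agent.RG4

/-- the set `S` of edges contains a copy of `H` -/
def Contains {V W : Type} (H : SimpleGraph W) (S : Set (Sym2 V)) : Prop :=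
  ∃ f : W → V, Function.Injective f ∧ ∀ a b, H.Adj a b → s(f a, f b) ∈ S

/-- A strategy of P1: his next edge as a function of the replies of P2 so far, in chronological
order (`none` stands for a pass). -/
abbrev Strategy (V : Type) : Type := List (Option (Sym2 V)) → Sym2 V

/-- the edges which P1 has claimed after he has answered the replies `h`: the values of `σ` at the
initial segments of `h` (`[]` and `h` included) -/
def red {V : Type} (σ : Strategy V) (h : List (Option (Sym2 V))) : Set (Sym2 V) :=
  {e | ∃ h', h' <+: h ∧ σ h' = e}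

/-- the edges which P2 has claimed with the replies `h` -/
def blue {V : Type} (h : List (Option (Sym2 V))) : Set (Sym2 V) := {e | some e ∈ h}

/-- `Play G H σ h`: the replies `h` are possible against the strategy `σ`: before each of them P1 has
not yet completed a copy of `H`, and each of them is a pass or claims an unclaimed edge of the
board `G`. -/
inductive Play {V W : Type} (G : SimpleGraph V) (H : SimpleGraph W) (σ : Strategy V) :
    List (Option (Sym2 V)) → Prop
  | start : Play G H σ []
  | pass {h : List (Option (Sym2 V))} (hp : Play G H σ h) (hc : ¬ Contains H (red σ h)) :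
      Play G H σ (h ++ [none])
  | claim {h : List (Option (Sym2 V))} {e : Sym2 V} (hp : Play G H σ h)
      (hc : ¬ Contains H (red σ h)) (he : e ∈ G.edgeSet) (hr : e ∉ red σ h) (hb : e ∉ blue h) :
      Play G H σ (h ++ [some e])

/-- `σ` wins against every play of P2, whether or not P2 passes: P1 always claims an unclaimed edge
of the board, P2 never completes a copy of `H`, and no play goes on forever (since P2 may always
pass, a play stops only when P1 completes a copy of `H`). -/
structure Winning {V W : Type} (G : SimpleGraph V) (H : SimpleGraph W) (σ : Strategy V) : Prop where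
  /-- P1 claims edges of the board -/
  edge : ∀ h, Play G H σ h → σ h ∈ G.edgeSet
  /-- which P2 has not claimed -/
  notBlue : ∀ h, Play G H σ h → σ h ∉ blue h
  /-- and which he has not claimed himself -/
  notRed : ∀ h, Play G H σ h → ∀ h', h' <+: h → h' ≠ h → σ h ≠ σ h'
  /-- P2 does not complete a copy of `H` -/
  safe : ∀ h, Play G H σ h → ¬ Contains H (blue h)
  /-- every play ends -/
  ends : ∀ x : ℕ → Option (Sym2 V), ∃ t, ¬ Play G H σ ((List.range t).map x)

/-- the number of passes in a list of replies -/
def passes {V : Type} (h : List (Option (Sym2 V))) : ℕ := h.countP (fun x => x.isNone)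

/-- `p(σ) = m`: the largest number of passes over all plays consistent with `σ` is `m`. -/
def MaxPasses {V W : Type} (G : SimpleGraph V) (H : SimpleGraph W) (σ : Strategy V) (m : ℕ) :
    Prop :=
  IsGreatest {c | ∃ h, Play G H σ h ∧ passes h = c} m

/-- `k = min p(σ)` over all winning strategies: the initiative of the game -/
def Initiative {V W : Type} (G : SimpleGraph V) (H : SimpleGraph W) (k : ℕ) : Prop :=
  IsLeast {m | ∃ σ : Strategy V, Winning G H σ ∧ MaxPasses G H σ m} k

/-! ## The game on `K_n` with target `K_4` -/

/-- the set `S` of pairs contains the six edges of a `K_4` -/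
def K4 {n : ℕ} (S : Set (Sym2 (Fin n))) : Prop :=
  ∃ f : Fin 4 → Fin n, Function.Injective f ∧ ∀ i j, i ≠ j → s(f i, f j) ∈ S

theorem contains_iff {n : ℕ} (S : Set (Sym2 (Fin n))) :
    Contains (⊤ : SimpleGraph (Fin 4)) S ↔ K4 S := by
  unfold Contains K4
  simp only [SimpleGraph.top_adj]

/-- P1 to move, red edges `R`, blue edges `B`: he can win such that P2 makes at most `r` passes. -/
inductive Wn {n : ℕ} : ℕ → Set (Sym2 (Fin n)) → Set (Sym2 (Fin n)) → Prop
  | win {r : ℕ} {R B : Set (Sym2 (Fin n))} {e : Sym2 (Fin n)} (hB : ¬ K4 B) (he : ¬ e.IsDiag)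
      (hr : e ∉ R) (hb : e ∉ B) (hk : K4 (insert e R)) : Wn r R B
  | step {r : ℕ} {R B : Set (Sym2 (Fin n))} {e : Sym2 (Fin n)} (he : ¬ e.IsDiag)
      (hr : e ∉ R) (hb : e ∉ B) (hp : Wn r (insert e R) B)
      (hc : ∀ f : Sym2 (Fin n), ¬ f.IsDiag → f ∉ insert e R → f ∉ B →
        Wn (r + 1) (insert e R) (insert f B)) : Wn (r + 1) R B

theorem Wn.notK4 {n r : ℕ} {R B : Set (Sym2 (Fin n))} (h : Wn r R B) : ¬ K4 B := by
  induction h with
  | win hB _ _ _ _ => exact hB
  | step _ _ _ _ _ ih _ => exact ih

theorem Wn.mono {n r : ℕ} {R B : Set (Sym2 (Fin n))} (h : Wn r R B) : Wn (r + 1) R B := by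
  induction h with
  | win hB he hr hb hk => exact Wn.win hB he hr hb hk
  | step he hr hb _ _ ih1 ih2 => exact Wn.step he hr hb ih1 ih2

theorem Wn.mono_le {n r r' : ℕ} (hrr : r ≤ r') {R B : Set (Sym2 (Fin n))} (h : Wn r R B) :
    Wn r' R B := by
  induction r', hrr using Nat.le_induction with
  | base => exact h
  | succ r' _ ih => exact ih.mono

theorem K4.mono {n : ℕ} {S T : Set (Sym2 (Fin n))} (h : K4 S) (hST : S ⊆ T) : K4 T := by
  obtain ⟨f, hf, h1⟩ := h
  exact ⟨f, hf, fun i j hij => hST (h1 i j hij)⟩

end Pool.Agent.RG4
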