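import Pool.Agent.RG4.Wt

/-!
# Soundness of the certificate checker (MP_2d204b_co), 3: images of masks
-/

set_option autoImplicit false

namespace Pool.Agent.RG4

/-- The edges which correspond to the pairs of labels `< m` in the mask `A`, the label `i` being
placed at the vertex `ψ i`. -/
def img {V : Type} (m : ℕ) (ψ : ℕ → V) (A : ℕ) : Set (Sym2 V) :=
  {e | ∃ i j, i < m ∧ j < m ∧ i ≠ j ∧ A.testBit (w i + w j) = true ∧ e = s(ψ i, ψ j)}

variable {V : Type} {m M : ℕ} {ψ ψ' : ℕ → V} {A B : ℕ}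

theorem inj_on {ψ : ℕ → V} {m : ℕ} (hψ : Set.InjOn ψ {i | i < m}) {i j : ℕ} (hi : i < m)
    (hj : j < m) (h : ψ i = ψ j) : i = j := hψ hi hj h

theorem inj_on_mono {ψ : ℕ → V} {m M : ℕ} (hψ : Set.InjOn ψ {i | i < M}) (h : m ≤ M) :
    Set.InjOn ψ {i | i < m} :=
  hψ.mono fun _ hi => lt_of_lt_of_le hi h

/-- two pairs of labels with the same edge -/
theorem edge_eq (hψ : Set.InjOn ψ {i | i < m}) {i j k l : ℕ} (hi : i < m) (hj : j < m)
    (hk : k < m) (hl : l < m) (h : s(ψ i, ψ j) = s(ψ k, ψ l)) :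
    (i = k ∧ j = l) ∨ (i = l ∧ j = k) := by
  rw [Sym2.eq_iff] at h
  rcases h with ⟨h1, h2⟩ | ⟨h1, h2⟩
  · exact Or.inl ⟨inj_on hψ hi hk h1, inj_on hψ hj hl h2⟩
  · exact Or.inr ⟨inj_on hψ hi hl h1, inj_on hψ hj hk h2⟩

theorem mem_img (hψ : Set.InjOn ψ {i | i < m}) {i j : ℕ} (hi : i < m)
    (hj : j < m) (hij : i ≠ j) : s(ψ i, ψ j) ∈ img m ψ A ↔ A.testBit (w i + w j) = true := by
  constructor
  · rintro ⟨k, l, hk, hl, hkl, h1, h2⟩
    rcases edge_eq hψ hi hj hk hl h2 with ⟨rfl, rfl⟩ | ⟨rfl, rfl⟩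
    · exact h1
    · rw [Nat.add_comm]
      exact h1
  · intro h
    exact ⟨i, j, hi, hj, hij, h, rfl⟩

theorem img_bt (hm : m < 15) {i j : ℕ} (hi : i < m) (hj : j < m) (hij : i ≠ j) :
    img m ψ (bt (w i + w j)) = {s(ψ i, ψ j)} := by
  ext e
  rw [Set.mem_singleton_iff]
  constructor
  · rintro ⟨k, l, hk, hl, hkl, h1, rfl⟩
    rw [bt_bit] at h1
    rcases w_sum (by omega) (by omega) (by omega) (by omega) h1 with ⟨rfl, rfl⟩ | ⟨rfl, rfl⟩
    · rfl
    · exact Sym2.eq_swap
  · rintro rfl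
    exact ⟨i, j, hi, hj, hij, (bt_bit _ _).mpr rfl, rfl⟩

theorem img_lor : img m ψ (Nat.lor A B) = img m ψ A ∪ img m ψ B := by
  ext e
  constructor
  · rintro ⟨i, j, hi, hj, hij, h, rfl⟩
    rw [lor_bit] at h
    rcases h with h | h
    · exact Or.inl ⟨i, j, hi, hj, hij, h, rfl⟩
    · exact Or.inr ⟨i, j, hi, hj, hij, h, rfl⟩
  · rintro (⟨i, j, hi, hj, hij, h, rfl⟩ | ⟨i, j, hi, hj, hij, h, rfl⟩)
    · exact ⟨i, j, hi, hj, hij, (lor_bit _ _ _).mpr (Or.inl h), rfl⟩
    · exact ⟨i, j, hi, hj, hij, (lor_bit _ _ _).mpr (Or.inr h), rfl⟩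

theorem img_insert (hm : m < 15) {i j : ℕ} (hi : i < m) (hj : j < m) (hij : i ≠ j) :
    img m ψ (Nat.lor A (bt (w i + w j))) = insert s(ψ i, ψ j) (img m ψ A) := by
  rw [img_lor, img_bt hm hi hj hij, Set.union_comm]
  rfl

theorem img_mono (h : sub A B = true) : img m ψ A ⊆ img m ψ B := by
  rintro _ ⟨i, j, hi, hj, hij, h1, rfl⟩
  exact ⟨i, j, hi, hj, hij, sub_bit h h1, rfl⟩

/-- the image does not depend on the number of labels, nor on the place of the unused ones -/
theorem img_congr (hmM : m ≤ M) (hM : M < 15) (hA : sub A (nth 0 APs m) = true)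
    (h : ∀ i, i < m → ψ i = ψ' i) : img m ψ A = img M ψ' A := by
  ext e
  constructor
  · rintro ⟨i, j, hi, hj, hij, h1, rfl⟩
    exact ⟨i, j, by omega, by omega, hij, h1, by rw [h i hi, h j hj]⟩
  · rintro ⟨i, j, hi, hj, hij, h1, rfl⟩
    have h2 := sub_bit hA h1
    rw [ap_bit_iff (by omega) (by omega) (by omega)] at h2
    exact ⟨i, j, h2.1, h2.2.1, hij, h1, by rw [h i h2.1, h j h2.2.1]⟩

/-- an edge of the image joins two labelled vertices -/
theorem img_vertex {e : Sym2 V} (h : e ∈ img m ψ A) {v : V} (hv : v ∈ e) : ∃ i, i < m ∧ ψ i = v := by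
  obtain ⟨i, j, hi, hj, -, -, rfl⟩ := h
  rw [Sym2.mem_iff] at hv
  rcases hv with rfl | rfl
  · exact ⟨i, hi, rfl⟩
  · exact ⟨j, hj, rfl⟩

theorem img_disj (hψ : Set.InjOn ψ {i | i < m}) (h : bz (Nat.land A B) = true) {e : Sym2 V}
    (h1 : e ∈ img m ψ A) (h2 : e ∈ img m ψ B) : False := by
  obtain ⟨i, j, hi, hj, hij, h3, rfl⟩ := h1
  rw [mem_img hψ hi hj hij] at h2
  exact no_bit h (w i + w j) ((land_bit _ _ _).mpr ⟨h3, h2⟩)

/-! ## Decoding of packed pairs -/

/-- the pairs of shifts packed in `D` -/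
def dec : ℕ → ℕ → List (ℕ × ℕ)
  | 0, _ => []
  | k + 1, D => (Nat.land D 255, Nat.land (Nat.shiftRight D 8) 255) :: dec k (Nat.shiftRight D 16)

theorem dec_length (k D : ℕ) : (dec k D).length = k := by
  induction k generalizing D with
  | zero => rfl
  | succ k ih =>
    show (dec k (Nat.shiftRight D 16)).length + 1 = k + 1
    rw [ih]

theorem mm_bit (P k D c : ℕ) : (mm P k D).testBit c = true ↔
    ∃ p ∈ dec k D, c = dg P p.1 + dg P p.2 := by
  induction k generalizing D with
  | zero =>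
    have h : mm P 0 D = 0 := rfl
    rw [h]
    simp [dec]
  | succ k ih =>
    have h : mm P (k + 1) D = Nat.lor (bt (dg P (Nat.land D 255) +
      dg P (Nat.land (Nat.shiftRight D 8) 255))) (mm P k (Nat.shiftRight D 16)) := rfl
    rw [h, lor_bit, bt_bit, ih]
    show _ ↔ ∃ p ∈ (Nat.land D 255, Nat.land (Nat.shiftRight D 8) 255) ::
      dec k (Nat.shiftRight D 16), _
    simp only [List.mem_cons, exists_eq_or_imp]
    constructor
    · rintro (h1 | h1)
      · exact Or.inl h1.symm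
      · exact Or.inr h1
    · rintro (h1 | h1)
      · exact Or.inl h1.symm
      · exact Or.inr h1

theorem vmk_bit (k D c : ℕ) : (vmk k D).testBit c = true ↔ ∃ p ∈ dec k D, c = p.1 ∨ c = p.2 := by
  induction k generalizing D with
  | zero =>
    have h : vmk 0 D = 0 := rfl
    rw [h]
    simp [dec]
  | succ k ih =>
    have h : vmk (k + 1) D = Nat.lor (Nat.lor (bt (Nat.land D 255))
      (bt (Nat.land (Nat.shiftRight D 8) 255))) (vmk k (Nat.shiftRight D 16)) := rfl
    rw [h, lor_bit, lor_bit, bt_bit, bt_bit, ih]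
    show _ ↔ ∃ p ∈ (Nat.land D 255, Nat.land (Nat.shiftRight D 8) 255) ::
      dec k (Nat.shiftRight D 16), _
    simp only [List.mem_cons, exists_eq_or_imp]
    constructor
    · rintro ((h1 | h1) | h1)
      · exact Or.inl (Or.inl h1.symm)
      · exact Or.inl (Or.inr h1.symm)
      · exact Or.inr h1
    · rintro ((h1 | h1) | h1)
      · exact Or.inl (Or.inl h1.symm)
      · exact Or.inl (Or.inr h1.symm)
      · exact Or.inr h1

theorem dec_append (j k D : ℕ) : dec (j + k) D = dec j D ++ dec k (D >>> (16 * j)) := by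
  induction j generalizing D with
  | zero => simp [dec]
  | succ j ih =>
    have h : j + 1 + k = (j + k) + 1 := by omega
    rw [h]
    show _ :: dec (j + k) (D >>> 16) = (_ :: dec j (D >>> 16)) ++ _
    rw [ih, List.cons_append, ← Nat.shiftRight_add]
    congr 4
    omega

/-- The edges of a list of pairs of shifts (the label `i` has the shift `8 i`). -/
def es {V : Type} (ψ : ℕ → V) (L : List (ℕ × ℕ)) : Set (Sym2 V) :=
  {e | ∃ p ∈ L, e = s(ψ (p.1 / 8), ψ (p.2 / 8))}

/-- the entries of the list are pairs of distinct labels `< m` -/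
def okL (m : ℕ) (L : List (ℕ × ℕ)) : Prop :=
  ∀ p ∈ L, ∃ i j, i < m ∧ j < m ∧ i ≠ j ∧ p = (8 * i, 8 * j)

/-- a relabelled list and its mask -/
theorem es_img {m M P k D : ℕ} {π : ℕ → ℕ} (hM : M < 15) (hok : okL m (dec k D))
    (hπ : ∀ i, i < m → π i < M ∧ dg P (8 * i) = w (π i)) (hinj : Set.InjOn π {i | i < m}) :
    es (fun i => ψ (π i)) (dec k D) = img M ψ (mm P k D) := by
  ext e
  constructor
  · rintro ⟨p, hp, rfl⟩
    obtain ⟨i, j, hi, hj, hij, rfl⟩ := hok p hp
    have e1 : 8 * i / 8 = i := by omega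
    have e2 : 8 * j / 8 = j := by omega
    refine ⟨π i, π j, (hπ i hi).1, (hπ j hj).1, fun h => hij (hinj hi hj h), ?_, ?_⟩
    · rw [mm_bit]
      exact ⟨_, hp, by rw [(hπ i hi).2, (hπ j hj).2]⟩
    · simp only [e1, e2]
  · rintro ⟨a, b, ha, hb, hab, h1, rfl⟩
    rw [mm_bit] at h1
    obtain ⟨p, hp, h2⟩ := h1
    obtain ⟨i, j, hi, hj, hij, rfl⟩ := hok p hp
    have e1 : 8 * i / 8 = i := by omega
    have e2 : 8 * j / 8 = j := by omega
    simp only at h2
    rw [(hπ i hi).2, (hπ j hj).2] at h2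
    have hi' := (hπ i hi).1
    have hj' := (hπ j hj).1
    refine ⟨_, hp, ?_⟩
    simp only [e1, e2]
    rcases w_sum (by omega) (by omega) (by omega) (by omega) h2 with ⟨h3, h4⟩ | ⟨h3, h4⟩
    · rw [h3, h4]
    · rw [h3, h4]
      exact Sym2.eq_swap

/-- the identical labelling -/
theorem es_img_id {m k D : ℕ} (hm : m < 15) (hok : okL m (dec k D)) :
    es ψ (dec k D) = img m ψ (mm W0 k D) :=
  es_img (π := fun i => i) hm hok (fun i hi => ⟨hi, w0_spec i (by omega)⟩)
    (fun _ _ _ _ h => h)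

theorem dg_shift (P i : ℕ) : dg (Nat.shiftRight P 8) (8 * i) = dg P (8 * (i + 1)) := by
  show (P >>> 8) >>> (8 * i) &&& 255 = P >>> (8 * (i + 1)) &&& 255
  rw [← Nat.shiftRight_add]
  congr 2
  omega

theorem xor_bit {S t e : ℕ} (hS : S.testBit t = true)
    (h : (Nat.xor S (bt t)).testBit e = true) : S.testBit e = true ∧ e ≠ t := by
  have h' : (S ^^^ bt t).testBit e = true := h
  rw [Nat.testBit_xor] at h'
  by_cases het : e = t
  · rw [het, hS, (bt_bit t t).mpr rfl] at h'
    simp at h'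
  · have h1 : (bt t).testBit e = false := by
      cases h2 : (bt t).testBit e with
      | false => rfl
      | true => exact absurd ((bt_bit _ _).mp h2).symm het
    rw [h1] at h'
    exact ⟨by simpa using h', het⟩

theorem perm_sound (k P S : ℕ) (h : perm k P S = true) :
    (∀ i, i < k → S.testBit (dg P (8 * i)) = true) ∧
      ∀ i j, i < k → j < k → dg P (8 * i) = dg P (8 * j) → i = j := by
  induction k generalizing P S with
  | zero => exact ⟨fun i hi => absurd hi (by omega), fun i _ hi => absurd hi (by omega)⟩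
  | succ k ih =>
    have h' : band (bnot (bz (Nat.land S (bt (Nat.land P 255)))))
      (perm k (Nat.shiftRight P 8) (Nat.xor S (bt (Nat.land P 255)))) = true := h
    rw [band_iff, bnot_iff] at h'
    obtain ⟨h1, h2⟩ := h'
    have h0 : dg P (8 * 0) = Nat.land P 255 := rfl
    have h3 : S.testBit (Nat.land P 255) = true := by
      obtain ⟨c, hc⟩ := exists_bit h1
      rw [land_bit, bt_bit] at hc
      rw [hc.2]
      exact hc.1
    obtain ⟨h4, h5⟩ := ih _ _ h2
    have h6 : ∀ i, i < k → S.testBit (dg P (8 * (i + 1))) = true ∧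
        dg P (8 * (i + 1)) ≠ Nat.land P 255 := fun i hi => by
      have := h4 i hi
      rw [dg_shift] at this
      exact xor_bit h3 this
    refine ⟨fun i hi => ?_, fun i j hi hj hij => ?_⟩
    · cases i with
      | zero => exact h3
      | succ i => exact (h6 i (by omega)).1
    · cases i with
      | zero =>
        cases j with
        | zero => rfl
        | succ j => exact absurd hij.symm (h6 j (by omega)).2
      | succ i =>
        cases j with
        | zero => exact absurd hij (h6 i (by omega)).2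
        | succ j =>
          have := h5 i j (by omega) (by omega) (by rw [dg_shift, dg_shift]; exact hij)
          rw [this]

end Pool.Agent.RG4
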