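import Pool.Agent.RG4.Strat

/-!
# The lower bound: P2 can pass at least six times (MP_2d204b_co)

P2 passes four times.  If P1 then has no five edges of a `K_4`, P2 passes twice more.  Otherwise
he claims the missing edge and then passes twice: with two more edges P1 cannot complete
another `K_4`.
-/

set_option autoImplicit false

namespace Pool.Agent.RG4

variable {n : ℕ}

/-- the six edges -/
def six (f : Fin 4 → Fin n) : Finset (Sym2 (Fin n)) :=
  {s(f 0, f 1), s(f 0, f 2), s(f 0, f 3), s(f 1, f 2), s(f 1, f 3), s(f 2, f 3)}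

theorem six_card {f : Fin 4 → Fin n} (hf : Function.Injective f) : (six f).card = 6 := by
  have h01 : f 0 ≠ f 1 := fun h => by have := hf h; revert this; decide
  have h02 : f 0 ≠ f 2 := fun h => by have := hf h; revert this; decide
  have h03 : f 0 ≠ f 3 := fun h => by have := hf h; revert this; decide
  have h12 : f 1 ≠ f 2 := fun h => by have := hf h; revert this; decide
  have h13 : f 1 ≠ f 3 := fun h => by have := hf h; revert this; decide
  have h23 : f 2 ≠ f 3 := fun h => by have := hf h; revert this; decide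
  unfold six
  rw [Finset.card_insert_of_notMem, Finset.card_insert_of_notMem, Finset.card_insert_of_notMem,
    Finset.card_insert_of_notMem, Finset.card_insert_of_notMem, Finset.card_singleton]
  all_goals
    simp only [Finset.mem_insert, Finset.mem_singleton, Sym2.eq_iff, not_or, not_and]
  all_goals
    refine ?_
  all_goals
    simp only [h01, h02, h03, h12, h13, h23, h01.symm, h02.symm, h03.symm, h12.symm, h13.symm,
      h23.symm, false_implies, true_implies, not_false_eq_true, and_self, implies_true,
      not_true_eq_false, imp_false]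

theorem six_mem (f : Fin 4 → Fin n) (i j : Fin 4) (hij : i ≠ j) : s(f i, f j) ∈ six f := by
  unfold six
  simp only [Finset.mem_insert, Finset.mem_singleton, Sym2.eq_iff]
  fin_cases i <;> fin_cases j <;> simp at hij ⊢

theorem six_sub {f : Fin 4 → Fin n} {S : Set (Sym2 (Fin n))}
    (h : ∀ i j, i ≠ j → s(f i, f j) ∈ S) : ↑(six f) ⊆ S := by
  intro e he
  rw [Finset.mem_coe] at he
  unfold six at he
  simp only [Finset.mem_insert, Finset.mem_singleton] at he
  rcases he with rfl | rfl | rfl | rfl | rfl | rfl <;> exact h _ _ (by decide)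

/-- a `K_4` has six edges -/
theorem K4.card {F : Finset (Sym2 (Fin n))} (h : K4 (↑F : Set (Sym2 (Fin n)))) : 6 ≤ F.card := by
  obtain ⟨f, hf, h1⟩ := h
  have h2 : six f ⊆ F := by
    have := six_sub h1
    exact_mod_cast this
  rw [← six_card hf]
  exact Finset.card_le_card h2

/-- the main step of the lower bound -/
theorem notK4_two {F : Finset (Sym2 (Fin n))} (hF : F.card ≤ 5) {f e₁ e₂ : Sym2 (Fin n)}
    (hk : K4 (insert f (↑F : Set (Sym2 (Fin n))))) (h1 : e₁ ≠ f) (h2 : e₂ ≠ f) :
    ¬ K4 (insert e₂ (insert e₁ (↑F : Set (Sym2 (Fin n))))) := by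
  rintro ⟨g', hg', hk'⟩
  obtain ⟨g, hg, hkg⟩ := hk
  have hfF : f ∉ F := by
    intro hf
    have : K4 (↑F : Set (Sym2 (Fin n))) := by
      refine ⟨g, hg, fun i j hij => ?_⟩
      have := hkg i j hij
      rw [Set.insert_eq_of_mem (Finset.mem_coe.mpr hf)] at this
      exact this
    have := this.card
    omega
  have hsub : six g ⊆ insert f F := by
    have := six_sub hkg
    rw [← Finset.coe_insert] at this
    exact_mod_cast this
  have heq : six g = insert f F := by
    apply Finset.eq_of_subset_of_card_le hsub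
    rw [six_card hg, Finset.card_insert_of_notMem hfF]
    omega
  by_cases hr : Set.range g' ⊆ Set.range g
  · -- the same four vertices
    have hr2 : Set.range g ⊆ Set.range g' := by
      have e1 : (Finset.univ.image g') ⊆ (Finset.univ.image g) := by
        intro v hv
        rw [Finset.mem_image] at hv ⊢
        obtain ⟨i, -, rfl⟩ := hv
        obtain ⟨j, hj⟩ := hr ⟨i, rfl⟩
        exact ⟨j, Finset.mem_univ _, hj⟩
      have e2 := Finset.eq_of_subset_of_card_le e1 (by
        rw [Finset.card_image_of_injective _ hg, Finset.card_image_of_injective _ hg'])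
      rintro v ⟨i, rfl⟩
      have : g i ∈ Finset.univ.image g' := by
        rw [e2]
        exact Finset.mem_image_of_mem g (Finset.mem_univ i)
      rw [Finset.mem_image] at this
      obtain ⟨j, -, hj⟩ := this
      exact ⟨j, hj⟩
    have hfs : f ∈ six g := by rw [heq]; exact Finset.mem_insert_self _ _
    have hff : f ∈ insert e₂ (insert e₁ (↑F : Set (Sym2 (Fin n)))) := by
      have h3 : ∀ i j, i ≠ j → s(g i, g j) ∈ insert e₂ (insert e₁ (↑F : Set (Sym2 (Fin n)))) := by
        intro i j hij
        obtain ⟨i', hi'⟩ := hr2 ⟨i, rfl⟩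
        obtain ⟨j', hj'⟩ := hr2 ⟨j, rfl⟩
        rw [← hi', ← hj']
        refine hk' i' j' ?_
        rintro rfl
        rw [hi'] at hj'
        exact hij (hg hj')
      exact six_sub h3 (Finset.mem_coe.mpr hfs)
    rcases hff with h | h | h
    · exact h2 h.symm
    · exact h1 h.symm
    · exact hfF (Finset.mem_coe.mp h)
  · -- a new vertex
    rw [Set.not_subset] at hr
    obtain ⟨v, ⟨a, rfl⟩, hv⟩ := hr
    have h3 : ∀ b, a ≠ b → s(g' a, g' b) ∈ ({e₁, e₂} : Finset (Sym2 (Fin n))) := by
      intro b hab
      rcases hk' a b hab with h | h | h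
      · rw [h]; simp
      · rw [h]; simp
      · exfalso
        have h4 : s(g' a, g' b) ∈ six g := by
          rw [heq]
          exact Finset.mem_insert_of_mem (Finset.mem_coe.mp h)
        unfold six at h4
        simp only [Finset.mem_insert, Finset.mem_singleton, Sym2.eq_iff] at h4
        apply hv
        rcases h4 with h4 | h4 | h4 | h4 | h4 | h4 <;>
          rcases h4 with ⟨h5, -⟩ | ⟨h5, -⟩ <;> exact ⟨_, h5.symm⟩
    have h5 : ((Finset.univ.erase a).image fun b => s(g' a, g' b)) ⊆
        ({e₁, e₂} : Finset (Sym2 (Fin n))) := by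
      intro e he
      rw [Finset.mem_image] at he
      obtain ⟨b, hb, rfl⟩ := he
      exact h3 b (Finset.ne_of_mem_erase hb).symm
    have h6 := Finset.card_le_card h5
    rw [Finset.card_image_of_injOn, Finset.card_erase_of_mem (Finset.mem_univ a)] at h6
    · have h7 : ({e₁, e₂} : Finset (Sym2 (Fin n))).card ≤ 2 := Finset.card_le_two
      simp only [Finset.card_univ, Fintype.card_fin] at h6
      omega
    · intro b _ b' _ hbb
      simp only [Sym2.eq_iff, true_and] at hbb
      rcases hbb with h | ⟨h, h'⟩
      · exact hg' h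
      · rw [h] at h'
        exact hg' h'

/-- `k` passes -/
def pp (n k : ℕ) : List (Option (Sym2 (Fin n))) := List.replicate k none

theorem pp_succ (k : ℕ) : pp n (k + 1) = pp n k ++ [none] := by
  unfold pp
  rw [List.replicate_succ']

theorem red_pp (σ : Strategy (Fin n)) (k : ℕ) :
    red σ (pp n k) = ↑((Finset.range (k + 1)).image fun i => σ (pp n i)) := by
  induction k with
  | zero =>
    have : pp n 0 = [] := rfl
    rw [this, red_nil]
    simp [this]
  | succ k ih =>
    rw [pp_succ, red_concat, ih, ← pp_succ, Finset.range_add_one (n := k + 1), Finset.image_insert,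
      Finset.coe_insert]

theorem red_pp_card (σ : Strategy (Fin n)) (k : ℕ) :
    ((Finset.range (k + 1)).image fun i => σ (pp n i)).card ≤ k + 1 := by
  refine Finset.card_image_le.trans ?_
  rw [Finset.card_range]

theorem play_pp (σ : Strategy (Fin n)) (k : ℕ) (hk : k ≤ 5) :
    Play (⊤ : SimpleGraph (Fin n)) (⊤ : SimpleGraph (Fin 4)) σ (pp n k) := by
  induction k with
  | zero => exact Play.start
  | succ k ih =>
    rw [pp_succ]
    refine Play.pass (ih (by omega)) ?_
    rw [contains_iff, red_pp]
    intro h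
    have h1 := h.card
    have h2 := red_pp_card σ k
    omega

theorem passes_pp (k : ℕ) : passes (pp n k) = k := by
  induction k with
  | zero => rfl
  | succ k ih => rw [pp_succ, passes_none, ih]

theorem blue_pp (k : ℕ) : blue (pp n k) = ∅ := by
  induction k with
  | zero => exact blue_nil
  | succ k ih => rw [pp_succ, blue_none, ih]

theorem K4.notDiag {S : Set (Sym2 (Fin n))} {f : Sym2 (Fin n)} (h : K4 (insert f S))
    (h' : ¬ K4 S) : ¬ f.IsDiag := by
  intro hd
  apply h'
  obtain ⟨g, hg, hk⟩ := h
  refine ⟨g, hg, fun i j hij => ?_⟩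
  rcases hk i j hij with h1 | h1
  · exfalso
    rw [← h1] at hd
    rw [Sym2.mk_isDiag_iff] at hd
    exact hij (hg hd)
  · exact h1

/-- the lower bound -/
theorem six_le (σ : Strategy (Fin n))
    (hσ : Winning (⊤ : SimpleGraph (Fin n)) (⊤ : SimpleGraph (Fin 4)) σ) :
    ∃ h, Play (⊤ : SimpleGraph (Fin n)) (⊤ : SimpleGraph (Fin 4)) σ h ∧ 6 ≤ passes h := by
  obtain ⟨F, hF⟩ : ∃ F, F = (Finset.range (4 + 1)).image fun i => σ (pp n i) := ⟨_, rfl⟩
  have hFc : F.card ≤ 5 := by rw [hF]; exact red_pp_card σ 4
  have hred : red σ (pp n 4) = ↑F := by rw [hF]; exact red_pp σ 4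
  have hP4 := play_pp σ 4 (by norm_num)
  have hnF : ¬ K4 (↑F : Set (Sym2 (Fin n))) := fun h => by
    have := h.card
    omega
  by_cases hA : ∃ f, K4 (insert f (↑F : Set (Sym2 (Fin n))))
  · obtain ⟨f, hf⟩ := hA
    have hfF : f ∉ (↑F : Set (Sym2 (Fin n))) := by
      intro h
      rw [Set.insert_eq_of_mem h] at hf
      exact hnF hf
    have hfd := hf.notDiag hnF
    -- P2 claims `f`
    have p5 : Play (⊤ : SimpleGraph (Fin n)) (⊤ : SimpleGraph (Fin 4)) σ (pp n 4 ++ [some f]) := by
      refine Play.claim hP4 ?_ ?_ ?_ ?_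
      · rw [contains_iff, hred]
        exact hnF
      · rw [mem_top_edgeSet]
        exact hfd
      · rw [hred]
        exact hfF
      · rw [blue_pp]
        exact Set.notMem_empty f
    have b5 : σ (pp n 4 ++ [some f]) ≠ f := by
      intro h
      apply hσ.notBlue _ p5
      rw [blue_some, h]
      exact Set.mem_insert _ _
    have r5 : red σ (pp n 4 ++ [some f]) = insert (σ (pp n 4 ++ [some f])) ↑F := by
      rw [red_concat, hred]
    have p6 : Play (⊤ : SimpleGraph (Fin n)) (⊤ : SimpleGraph (Fin 4)) σ
        (pp n 4 ++ [some f] ++ [none]) := by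
      refine Play.pass p5 ?_
      rw [contains_iff, r5]
      intro h
      refine notK4_two hFc hf b5 b5 (h.mono ?_)
      exact Set.subset_insert _ _
    have b6 : σ (pp n 4 ++ [some f] ++ [none]) ≠ f := by
      intro h
      apply hσ.notBlue _ p6
      rw [blue_none, blue_some, h]
      exact Set.mem_insert _ _
    have p7 : Play (⊤ : SimpleGraph (Fin n)) (⊤ : SimpleGraph (Fin 4)) σ
        (pp n 4 ++ [some f] ++ [none] ++ [none]) := by
      refine Play.pass p6 ?_
      rw [contains_iff, red_concat, r5]
      exact notK4_two hFc hf b5 b6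
    refine ⟨_, p7, ?_⟩
    rw [passes_none, passes_none, passes_some, passes_pp]
  · push Not at hA
    have p5 := play_pp σ 5 le_rfl
    have p6 : Play (⊤ : SimpleGraph (Fin n)) (⊤ : SimpleGraph (Fin 4)) σ (pp n 6) := by
      rw [pp_succ]
      refine Play.pass p5 ?_
      rw [contains_iff, pp_succ, red_concat, hred]
      exact hA _
    exact ⟨_, p6, by rw [passes_pp]⟩

/-- if P1 can win such that P2 makes at most six passes then the initiative is six -/
theorem initiative_six (hw : Wn 6 (∅ : Set (Sym2 (Fin n))) ∅) :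
    Initiative (⊤ : SimpleGraph (Fin n)) (⊤ : SimpleGraph (Fin 4)) 6 := by
  constructor
  · obtain ⟨σ, h1, m, hm, h2⟩ := exists_strategy hw
    obtain ⟨h, hp, h6⟩ := six_le σ h1
    have h3 : passes h ≤ m := h2.2 ⟨h, hp, rfl⟩
    have h4 : m = 6 := by omega
    rw [h4] at h2
    exact ⟨σ, h1, h2⟩
  · rintro m ⟨σ, h1, h2⟩
    obtain ⟨h, hp, h6⟩ := six_le σ h1
    exact h6.trans (h2.2 ⟨h, hp, rfl⟩)

end Pool.Agent.RG4
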