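import Pool.Agent.RG4.Tab
import Pool.Agent.RG4.Cert.All

/-!
# P1 wins such that P2 makes at most six passes (MP_2d204b_co)
-/

set_option autoImplicit false

namespace Pool.Agent.RG4

/-- on `n ≥ 20` vertices P1 wins such that P2 makes at most six passes -/
theorem wn_six {n : ℕ} (hn : 20 ≤ n) : Wn 6 (∅ : Set (Sym2 (Fin n))) ∅ := by
  have h : ∀ j, j < 35470 → ∃ pd, chk T j pd = true := fun j hj => cert_all j (Nat.zero_le j) hj
  have h1 := all_good h 35469 (by norm_num)
  exact root_sound h1 root_fr root_fnR root_fnB root_fm hn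

end Pool.Agent.RG4
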