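import Pool.Agent.RG4.Vcf

/-!
# Soundness of the certificate checker (MP_2d204b_co), 6: entries of the table
-/

set_option autoImplicit false

namespace Pool.Agent.RG4

/-- The entry `S` of the table is correct: for every board with at least `20` vertices, every placement `ψ` of
the labels and every set `X` of at most `fx S` further blue edges, none of them red or in the zone,
P1 (to move) wins such that P2 makes at most `fr S` passes. -/
def GoodE (S : ℕ) : Prop :=
  fm S < 13 ∧ okL (fm S) (dec (fnR S) (fD S)) ∧ okL (fm S) (dec (fnB S) (fDB S)) ∧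
    okL (fm S) (dec (fnZ S) (fDZ S)) ∧
  ∀ n, 20 ≤ n → ∀ ψ : ℕ → Fin n, Set.InjOn ψ {i | i < fm S} → ∀ X : Finset (Sym2 (Fin n)),
    X.card ≤ fx S → (∀ e ∈ X, e ∉ es ψ (dec (fnR S) (fD S))) →
    (∀ e ∈ X, e ∉ es ψ (dec (fnZ S) (fDZ S))) →
    Wn (fr S) (es ψ (dec (fnR S) (fD S))) (es ψ (dec (fnB S) (fDB S)) ∪ ↑X)

theorem refok_iff (S P WM AP r x tR tB Z : ℕ) : refok S P WM AP r x tR tB Z = true ↔
    fr S ≤ r ∧ x ≤ fx S ∧ perm (fm S) P WM = true ∧ mm P (fnR S) (fD S) = tR ∧
      mm P (fnB S) (fDB S) = tB ∧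
      (x = 0 ∨ sub (Nat.land (mm P (fnZ S) (fDZ S)) AP) Z = true) := by
  unfold refok
  rw [band_iff, band_iff, band_iff, band_iff, band_iff, bor_iff, ble_iff, ble_iff, beq_iff, beq_iff,
    bz_iff]

/-- use of an entry of the table -/
theorem ref_sound {S P M r x AP tR tB Z n : ℕ} {ψ : ℕ → Fin n} {X : Finset (Sym2 (Fin n))}
    (hS : GoodE S) (hM : M < 15) (h : refok S P (nth 0 WMs M) AP r x tR tB Z = true)
    (hn : 20 ≤ n) (hψ : Set.InjOn ψ {i | i < M}) (hX : X.card ≤ fx S)
    (hXR : ∀ e ∈ X, e ∉ img M ψ tR)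
    (hXZ : ∀ e ∈ X, e ∉ img M ψ (mm P (fnZ S) (fDZ S))) :
    Wn (fr S) (img M ψ tR) (img M ψ tB ∪ ↑X) := by
  rw [refok_iff] at h
  obtain ⟨-, -, hp, hR, hB, -⟩ := h
  obtain ⟨hm, okR, okB, okZ, hW⟩ := hS
  obtain ⟨h1, h2⟩ := perm_sound _ _ _ hp
  have h3 : ∀ i, ∃ j, i < fm S → j < M ∧ dg P (8 * i) = w j := by
    intro i
    by_cases hi : i < fm S
    · obtain ⟨j, hj, hj2⟩ := (wm_bit hM).mp (h1 i hi)
      exact ⟨j, fun _ => ⟨hj, hj2⟩⟩
    · exact ⟨0, fun h => absurd h hi⟩
  choose π hπ using h3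
  have hinj : Set.InjOn π {i | i < fm S} := by
    intro i hi j hj hij
    exact h2 i j hi hj (by rw [(hπ i hi).2, (hπ j hj).2, hij])
  have eR := es_img (ψ := ψ) hM okR (fun i hi => hπ i hi) hinj
  have eB := es_img (ψ := ψ) hM okB (fun i hi => hπ i hi) hinj
  have eZ := es_img (ψ := ψ) hM okZ (fun i hi => hπ i hi) hinj
  rw [hR] at eR
  rw [hB] at eB
  have hψ' : Set.InjOn (fun i => ψ (π i)) {i | i < fm S} := by
    intro i hi j hj hij
    exact hinj hi hj (hψ (hπ i hi).1 (hπ j hj).1 hij)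
  have := hW n hn (fun i => ψ (π i)) hψ' X hX (by rw [eR]; exact hXR) (by rw [eZ]; exact hXZ)
  rw [eR, eB] at this
  exact this

/-- an edge of `X` is not in the image of the zone of an entry -/
theorem zone_sound {m M Z Z' n : ℕ} {ψ : ℕ → Fin n} {X : Finset (Sym2 (Fin n))} (hM : M < 15)
    (hmM : m ≤ M) (hsub : sub (Nat.land Z' (nth 0 APs m)) Z = true)
    (hXZ : ∀ e ∈ X, e ∉ img m ψ Z) (hfr : ∀ e ∈ X, ∀ i, m ≤ i → i < M → ψ i ∉ e) :
    ∀ e ∈ X, e ∉ img M ψ Z' := by
  rintro e he ⟨i, j, hi, hj, hij, h1, rfl⟩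
  have hi' : i < m := by
    by_contra h
    exact hfr _ he i (by omega) hi (Sym2.mem_mk_left _ _)
  have hj' : j < m := by
    by_contra h
    exact hfr _ he j (by omega) hj (Sym2.mem_mk_right _ _)
  apply hXZ _ he
  refine ⟨i, j, hi', hj', hij, ?_, rfl⟩
  exact sub_bit hsub ((land_bit _ _ _).mpr ⟨h1, ap_bit_of (by omega) hi' hj' hij⟩)

theorem img_congr' {V : Type} {m A : ℕ} {ψ ψ' : ℕ → V} (h : ∀ i, i < m → ψ' i = ψ i) :
    img m ψ A = img m ψ' A := by
  ext e
  constructor
  · rintro ⟨i, j, hi, hj, hij, h1, rfl⟩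
    exact ⟨i, j, hi, hj, hij, h1, by rw [h i hi, h j hj]⟩
  · rintro ⟨i, j, hi, hj, hij, h1, rfl⟩
    exact ⟨i, j, hi, hj, hij, h1, by rw [h i hi, h j hj]⟩

theorem ext_inj {n m : ℕ} {ψ : ℕ → Fin n} (hψ : Set.InjOn ψ {i | i < m}) {u v : Fin n}
    (hu : ∀ i, i < m → ψ i ≠ u) (hv : ∀ i, i < m → ψ i ≠ v) (huv : u ≠ v) :
    ∃ ψ' : ℕ → Fin n, (∀ i, i < m → ψ' i = ψ i) ∧ ψ' m = u ∧ ψ' (m + 1) = v ∧
      Set.InjOn ψ' {i | i < m + 2} := by
  refine ⟨fun i => if i < m then ψ i else if i = m then u else v, fun i hi => if_pos hi, ?_, ?_, ?_⟩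
  · simp
  · simp
  · intro i hi j hj hij
    have hi' : i < m + 2 := hi
    have hj' : j < m + 2 := hj
    simp only at hij
    by_cases h1 : i < m
    · rw [if_pos h1] at hij
      by_cases h2 : j < m
      · rw [if_pos h2] at hij
        exact hψ h1 h2 hij
      · rw [if_neg h2] at hij
        by_cases h3 : j = m
        · rw [if_pos h3] at hij
          exact absurd hij (hu i h1)
        · rw [if_neg h3] at hij
          exact absurd hij (hv i h1)
    · rw [if_neg h1] at hij
      by_cases h2 : j < m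
      · rw [if_pos h2] at hij
        by_cases h3 : i = m
        · rw [if_pos h3] at hij
          exact absurd hij.symm (hu j h2)
        · rw [if_neg h3] at hij
          exact absurd hij.symm (hv j h2)
      · rw [if_neg h2] at hij
        by_cases h3 : i = m
        · by_cases h4 : j = m
          · omega
          · rw [if_pos h3, if_neg h4] at hij
            exact absurd hij huv
        · by_cases h4 : j = m
          · rw [if_neg h3, if_pos h4] at hij
            exact absurd hij.symm huv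
          · omega

theorem exists_notMem {n : ℕ} (S : Finset (Fin n)) (h : S.card < n) : ∃ u, u ∉ S := by
  by_contra hc
  push Not at hc
  have h1 : S = Finset.univ := Finset.eq_univ_iff_forall.mpr hc
  rw [h1, Finset.card_univ, Fintype.card_fin] at h
  exact lt_irrefl _ h

/-- two fresh vertices -/
theorem exists_fresh {n m : ℕ} {ψ : ℕ → Fin n} (hψ : Set.InjOn ψ {i | i < m})
    (A : Finset (Fin n)) (hA : A.card + m + 2 ≤ n) :
    ∃ ψ' : ℕ → Fin n, (∀ i, i < m → ψ' i = ψ i) ∧ Set.InjOn ψ' {i | i < m + 2} ∧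
      ψ' m ∉ A ∧ ψ' (m + 1) ∉ A := by
  classical
  have hcard : (A ∪ (Finset.range m).image ψ).card ≤ A.card + m := by
    refine (Finset.card_union_le _ _).trans ?_
    have : ((Finset.range m).image ψ).card ≤ m := by
      simpa using Finset.card_image_le (s := Finset.range m) (f := ψ)
    omega
  obtain ⟨u, hu⟩ := exists_notMem (A ∪ (Finset.range m).image ψ) (by omega)
  have hcard2 : (insert u (A ∪ (Finset.range m).image ψ)).card ≤ A.card + m + 1 := by
    refine (Finset.card_insert_le _ _).trans ?_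
    omega
  obtain ⟨v, hv⟩ := exists_notMem (insert u (A ∪ (Finset.range m).image ψ)) (by omega)
  rw [Finset.mem_insert, not_or] at hv
  rw [Finset.mem_union, not_or] at hu
  have hv2 := hv.2
  rw [Finset.mem_union, not_or] at hv2
  have hui : ∀ i, i < m → ψ i ≠ u := fun i hi h =>
    hu.2 (Finset.mem_image.mpr ⟨i, Finset.mem_range.mpr hi, h⟩)
  have hvi : ∀ i, i < m → ψ i ≠ v := fun i hi h =>
    hv2.2 (Finset.mem_image.mpr ⟨i, Finset.mem_range.mpr hi, h⟩)
  obtain ⟨ψ', h1, h2, h3, h4⟩ := ext_inj hψ hui hvi (fun h => hv.1 h.symm)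
  exact ⟨ψ', h1, h4, by rw [h2]; exact hu.1, by rw [h3]; exact hv2.1⟩

/-- the vertices of the edges of `X` -/
theorem exists_cover {n : ℕ} (X : Finset (Sym2 (Fin n))) :
    ∃ A : Finset (Fin n), A.card ≤ 2 * X.card ∧ ∀ e ∈ X, ∀ v ∈ e, v ∈ A := by
  classical
  induction X using Finset.induction_on with
  | empty => exact ⟨∅, by simp, fun e he => absurd he (Finset.notMem_empty e)⟩
  | insert a X ha ih =>
    obtain ⟨A, hA, h⟩ := ih
    induction a using Sym2.ind with
    | _ u v =>
      refine ⟨insert u (insert v A), ?_, ?_⟩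
      · rw [Finset.card_insert_of_notMem ha]
        have h1 := Finset.card_insert_le u (insert v A)
        have h2 := Finset.card_insert_le v A
        omega
      · intro e he x hx
        rcases Finset.mem_insert.mp he with rfl | he
        · rw [Sym2.mem_iff] at hx
          rcases hx with rfl | rfl
          · exact Finset.mem_insert_self _ _
          · exact Finset.mem_insert_of_mem (Finset.mem_insert_self _ _)
        · exact Finset.mem_insert_of_mem (Finset.mem_insert_of_mem (h e he x hx))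

theorem reps_sound {T : ℕ → ℕ} {i WM AP r x tR B Z : ℕ} (k : ℕ) :
    ∀ D, reps T i WM AP r x tR B Z k D = true → ∀ c, (rm k D).testBit c = true →
      ∃ j P, j < i ∧ refok (T j) P WM AP r x tR (Nat.lor B (bt c)) Z = true := by
  induction k with
  | zero =>
    intro D _ c hc
    have h : rm 0 D = 0 := rfl
    rw [h] at hc
    simp at hc
  | succ k ih =>
    intro D h c hc
    have h' : band (Nat.ble (rid D + 1) i)
     (band (refok (T (rid D)) (rP D) WM AP r x tR (Nat.lor B (bt (Nat.land D 65535))) Z)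
      (reps T i WM AP r x tR B Z k (Nat.shiftRight D 144))) = true := h
    rw [band_iff, band_iff, ble_iff] at h'
    have hr : rm (k + 1) D = Nat.lor (bt (Nat.land D 65535)) (rm k (Nat.shiftRight D 144)) := rfl
    rw [hr, lor_bit, bt_bit] at hc
    rcases hc with hc | hc
    · refine ⟨rid D, rP D, by omega, ?_⟩
      rw [← hc]
      exact h'.2.1
    · exact ih _ h'.2.2 c hc

end Pool.Agent.RG4
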