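import Pool.Agent.RG4.Img

/-!
# Soundness of the certificate checker (MP_2d204b_co), 4: P2 cannot complete a `K_4`
-/

set_option autoImplicit false

namespace Pool.Agent.RG4

/-- a `K_4` whose vertices are sorted by an injective key -/
theorem K4.sorted {n : ℕ} {S : Set (Sym2 (Fin n))} (h : K4 S) {key : Fin n → ℕ}
    (hkey : Function.Injective key) : ∃ f : Fin 4 → Fin n, StrictMono (fun a => key (f a)) ∧
      ∀ i j, i ≠ j → s(f i, f j) ∈ S := by
  obtain ⟨f, hf, h1⟩ := h
  have hm : Monotone ((fun a => key (f a)) ∘ Tuple.sort (fun a => key (f a))) :=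
    Tuple.monotone_sort _
  have hinj : Function.Injective ((fun a => key (f a)) ∘ Tuple.sort (fun a => key (f a))) :=
    (hkey.comp hf).comp (Tuple.sort (fun a => key (f a))).injective
  exact ⟨fun a => f (Tuple.sort (fun a => key (f a)) a), hm.strictMono_of_injective hinj,
    fun i j hij => h1 _ _ fun h => hij ((Tuple.sort (fun a => key (f a))).injective h)⟩

/-- labelled vertices first -/
theorem exists_key {n m : ℕ} (ψ : ℕ → Fin n) : ∃ key : Fin n → ℕ, Function.Injective key ∧
    (∀ v, key v < m → ψ (key v) = v) ∧ ∀ v i, ¬ key v < m → i < m → ψ i ≠ v := by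
  classical
  refine ⟨fun v => if h : ∃ i, i < m ∧ ψ i = v then h.choose else m + v.val, ?_, ?_, ?_⟩
  · intro u v huv
    simp only at huv
    by_cases hu : ∃ i, i < m ∧ ψ i = u
    · by_cases hv : ∃ i, i < m ∧ ψ i = v
      · rw [dif_pos hu, dif_pos hv] at huv
        rw [← hu.choose_spec.2, ← hv.choose_spec.2, huv]
      · rw [dif_pos hu, dif_neg hv] at huv
        have := hu.choose_spec.1
        omega
    · by_cases hv : ∃ i, i < m ∧ ψ i = v
      · rw [dif_neg hu, dif_pos hv] at huv
        have := hv.choose_spec.1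
        omega
      · rw [dif_neg hu, dif_neg hv] at huv
        apply Fin.ext
        omega
  · intro v hv
    simp only at hv ⊢
    by_cases h : ∃ i, i < m ∧ ψ i = v
    · rw [dif_pos h]
      exact h.choose_spec.2
    · rw [dif_neg h] at hv
      omega
  · intro v i hv hi hψ
    simp only at hv
    have h : ∃ i, i < m ∧ ψ i = v := ⟨i, hi, hψ⟩
    rw [dif_pos h] at hv
    exact hv h.choose_spec.1

/-- the six pairs of vertices of a quadruple -/
def P6 : Finset (Fin 4 × Fin 4) := {(0, 1), (0, 2), (0, 3), (1, 2), (1, 3), (2, 3)}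

theorem P6_lt {p : Fin 4 × Fin 4} (hp : p ∈ P6) : p.1 < p.2 := by
  unfold P6 at hp
  simp only [Finset.mem_insert, Finset.mem_singleton] at hp
  rcases hp with rfl | rfl | rfl | rfl | rfl | rfl <;> decide

theorem P6_inj {n : ℕ} {f : Fin 4 → Fin n} (hf : Function.Injective f) {p q : Fin 4 × Fin 4}
    (hp : p ∈ P6) (hq : q ∈ P6) (h : s(f p.1, f p.2) = s(f q.1, f q.2)) : p = q := by
  have h1 := P6_lt hp
  have h2 := P6_lt hq
  rw [Sym2.eq_iff] at h
  rcases h with ⟨h3, h4⟩ | ⟨h3, h4⟩
  · exact Prod.ext (hf h3) (hf h4)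
  · have h5 := hf h3
    have h6 := hf h4
    rw [h5, h6] at h1
    exact absurd h1 (not_lt.mpr h2.le)

/-- at most `|X| + 1` pairs of a quadruple are not in `A` -/
theorem N_card {n : ℕ} {f : Fin 4 → Fin n} (hf : Function.Injective f) {A : Set (Sym2 (Fin n))}
    {X : Finset (Sym2 (Fin n))} {g : Sym2 (Fin n)} {N : Finset (Fin 4 × Fin 4)} (hN : N ⊆ P6)
    (h : ∀ p ∈ N, s(f p.1, f p.2) ∈ insert g (A ∪ ↑X) ∧ s(f p.1, f p.2) ∉ A) :
    N.card ≤ X.card + 1 := by
  classical
  have h1 : N.card ≤ (insert g X).card := by
    apply Finset.card_le_card_of_injOn (fun p => s(f p.1, f p.2))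
    · intro p hp
      obtain ⟨h2, h3⟩ := h p hp
      rw [Finset.mem_coe, Finset.mem_insert]
      rcases h2 with h2 | h2 | h2
      · exact Or.inl h2
      · exact absurd h2 h3
      · exact Or.inr (Finset.mem_coe.mp h2)
    · intro p hp q hq hpq
      exact P6_inj hf (hN hp) (hN hq) hpq
  exact h1.trans (Finset.card_insert_le g X)

theorem safe_sound {n m x nb R B Z : ℕ} {ψ : ℕ → Fin n} (hm : m < 13) (hx : x ≤ 3)
    (hψ : Set.InjOn ψ {i | i < m}) (hRB : bz (Nat.land R B) = true) {X : Finset (Sym2 (Fin n))}
    (hX : X.card ≤ x) (hXR : ∀ e ∈ X, e ∉ img m ψ R) (hXZ : ∀ e ∈ X, e ∉ img m ψ Z)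
    (hnb : ∃ F : Finset (Sym2 (Fin n)), F.card ≤ nb ∧ img m ψ B ⊆ ↑F)
    (h : safe (nth [] QLs m) (nth [] TLs m) x nb R B Z = true) {g : Sym2 (Fin n)}
    (hg : g ∉ img m ψ R) : ¬ K4 (insert g (img m ψ B ∪ ↑X)) := by
  classical
  intro hk
  have h' : bor (bnot (Nat.ble 5 (nb + x)))
    (band (allL (fun q => qok R B Z (x + 2) q) (nth [] QLs m))
     (bor (bnot (Nat.ble 2 x)) (allL (fun q => tok R B (x - 1) q) (nth [] TLs m)))) = true := h
  rw [bor_iff, bnot_iff, ble_iff_false, band_iff, bor_iff, bnot_iff, ble_iff_false] at h'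
  rcases h' with h1 | ⟨hQ, hT⟩
  · -- few blue edges
    obtain ⟨F, hF, hBF⟩ := hnb
    have h2 : K4 (↑(insert g (F ∪ X)) : Set (Sym2 (Fin n))) := by
      refine hk.mono ?_
      rw [Finset.coe_insert, Finset.coe_union]
      exact Set.insert_subset_insert (Set.union_subset_union_left _ hBF)
    have h3 := h2.card
    have h4 := Finset.card_insert_le g (F ∪ X)
    have h5 := Finset.card_union_le F X
    omega
  · obtain ⟨key, hkinj, hk1, hk2⟩ := exists_key (m := m) ψ
    obtain ⟨f, hfm, hS⟩ := hk.sorted hkinj
    have hf : Function.Injective f := fun a b hab => hfm.injective (by simp only [hab])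
    have hnr : ∀ p ∈ P6, s(f p.1, f p.2) ∉ img m ψ R := by
      intro p hp hR
      rcases hS p.1 p.2 (P6_lt hp).ne with h2 | h2 | h2
      · exact hg (h2 ▸ hR)
      · exact img_disj hψ hRB hR h2
      · exact hXR _ h2 hR
    obtain ⟨N, hNdef⟩ : ∃ N : Finset (Fin 4 × Fin 4),
      N = P6.filter (fun p => s(f p.1, f p.2) ∉ img m ψ B) := ⟨_, rfl⟩
    have hNsub : N ⊆ P6 := by
      rw [hNdef]
      exact Finset.filter_subset _ _
    have hNmem : ∀ p ∈ N, s(f p.1, f p.2) ∉ img m ψ B := by
      intro p hp
      rw [hNdef] at hp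
      exact (Finset.mem_filter.mp hp).2
    have hN : N.card ≤ x + 1 := by
      have := N_card hf hNsub (A := img m ψ B) (X := X) (g := g)
        (fun p hp => ⟨hS p.1 p.2 (P6_lt (hNsub hp)).ne, hNmem p hp⟩)
      omega
    have hout : ∀ a b : Fin 4, ¬ key (f b) < m → s(f a, f b) ∉ img m ψ B := by
      intro a b hb hab
      obtain ⟨i, hi, hψi⟩ := img_vertex hab (Sym2.mem_mk_right (f a) (f b))
      exact hk2 (f b) i hb hi hψi
    have hκ : ∀ p ∈ P6, key (f p.1) < key (f p.2) := fun p hp => hfm (P6_lt hp)
    -- for labelled pairs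
    have hlab : ∀ p ∈ P6, key (f p.2) < m → ∀ A : ℕ, s(f p.1, f p.2) ∈ img m ψ A ↔
        A.testBit (w (key (f p.1)) + w (key (f p.2))) = true := by
      intro p hp hp2 A
      have hlt := hκ p hp
      have h3 := mem_img (A := A) hψ (i := key (f p.1)) (j := key (f p.2)) (by omega) hp2 (by omega)
      rw [hk1 _ (by omega), hk1 _ hp2] at h3
      exact h3
    have h01 : key (f 0) < key (f 1) := hfm (by decide)
    have h12 : key (f 1) < key (f 2) := hfm (by decide)
    have h23 : key (f 2) < key (f 3) := hfm (by decide)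
    by_cases h3m : key (f 3) < m
    · -- all vertices are labelled
      have hq := allL_mem hQ (ql_mem hm h01 h12 h23 h3m)
      have hbit : ∀ c, (qm (w (key (f 0))) (w (key (f 1))) (w (key (f 2))) (w (key (f 3)))).testBit c
          = true → ∃ p ∈ P6, c = w (key (f p.1)) + w (key (f p.2)) := by
        intro c hc
        rw [qm_bit] at hc
        rcases hc with hc | hc | hc | hc | hc | hc
        · exact ⟨(0, 1), by simp [P6], hc⟩
        · exact ⟨(0, 2), by simp [P6], hc⟩
        · exact ⟨(0, 3), by simp [P6], hc⟩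
        · exact ⟨(1, 2), by simp [P6], hc⟩
        · exact ⟨(1, 3), by simp [P6], hc⟩
        · exact ⟨(2, 3), by simp [P6], hc⟩
      have hle3 : ∀ p : Fin 4 × Fin 4, key (f p.2) < m := by
        intro p
        have : key (f p.2) ≤ key (f 3) := hfm.monotone (Fin.le_last p.2)
        omega
      unfold qok at hq
      rw [bor_iff, bnot_iff, bor_iff] at hq
      rcases hq with hq | hq | hq
      · obtain ⟨c, hc⟩ := exists_bit hq
        rw [land_bit] at hc
        obtain ⟨p, hp, rfl⟩ := hbit c hc.1
        exact hnr p hp ((hlab p hp (hle3 p) R).mpr hc.2)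
      · have h4 := atL_card hq (N.image fun p => w (key (f p.1)) + w (key (f p.2))) (by
          intro c hc
          rw [diff_bit] at hc
          obtain ⟨p, hp, rfl⟩ := hbit c hc.1
          refine Finset.mem_image.mpr ⟨p, ?_, rfl⟩
          rw [hNdef, Finset.mem_filter]
          exact ⟨hp, fun hB => hc.2 ((hlab p hp (hle3 p) B).mp hB)⟩)
        have h5 : (N.image fun p => w (key (f p.1)) + w (key (f p.2))).card ≤ N.card :=
          Finset.card_image_le
        have h6 : x + 2 ≤ (N.image fun p => w (key (f p.1)) + w (key (f p.2))).card := h4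
        omega
      · obtain ⟨N2, hN2⟩ : ∃ N2 : Finset (Fin 4 × Fin 4),
          N2 = N.filter (fun p => s(f p.1, f p.2) ∈ img m ψ Z) := ⟨_, rfl⟩
        have h4 := atL_card hq (N2.image fun p => w (key (f p.1)) + w (key (f p.2))) (by
          intro c hc
          rw [land_bit, diff_bit] at hc
          obtain ⟨p, hp, rfl⟩ := hbit c hc.1.1
          refine Finset.mem_image.mpr ⟨p, ?_, rfl⟩
          rw [hN2, hNdef, Finset.mem_filter, Finset.mem_filter]
          exact ⟨⟨hp, fun hB => hc.1.2 ((hlab p hp (hle3 p) B).mp hB)⟩,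
            (hlab p hp (hle3 p) Z).mpr hc.2⟩)
        have h5 : (N2.image fun p => w (key (f p.1)) + w (key (f p.2))).card ≤ N2.card :=
          Finset.card_image_le
        have h6 : 2 ≤ (N2.image fun p => w (key (f p.1)) + w (key (f p.2))).card := h4
        have hN2sub : N2 ⊆ N := by
          rw [hN2]
          exact Finset.filter_subset _ _
        have h7 : N2.card ≤ (∅ : Finset (Sym2 (Fin n))).card + 1 := by
          refine N_card hf (hN2sub.trans hNsub) (A := img m ψ B) (X := ∅) (g := g) fun p hp => ?_
          have hpN := hN2sub hp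
          have hpZ : s(f p.1, f p.2) ∈ img m ψ Z := by
            rw [hN2] at hp
            exact (Finset.mem_filter.mp hp).2
          refine ⟨?_, hNmem p hpN⟩
          rcases hS p.1 p.2 (P6_lt (hNsub hpN)).ne with h8 | h8 | h8
          · exact Or.inl h8
          · exact absurd h8 (hNmem p hpN)
          · exact absurd hpZ (hXZ _ h8)
        rw [Finset.card_empty] at h7
        omega
    · -- the last vertex is not labelled
      have hN3 : ∀ a : Fin 4, (a, (3 : Fin 4)) ∈ P6 → (a, (3 : Fin 4)) ∈ N := by
        intro a ha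
        rw [hNdef, Finset.mem_filter]
        exact ⟨ha, hout a 3 h3m⟩
      by_cases h2m : key (f 2) < m
      · obtain ⟨N', hN'⟩ : ∃ N' : Finset (Fin 4 × Fin 4), N' = N.filter (fun p => p.2 ≠ 3) :=
          ⟨_, rfl⟩
        have hcard : 3 + N'.card ≤ N.card := by
          have h4 : ({(0, 3), (1, 3), (2, 3)} : Finset (Fin 4 × Fin 4)) ∪ N' ⊆ N := by
            apply Finset.union_subset
            · intro p hp
              simp only [Finset.mem_insert, Finset.mem_singleton] at hp
              rcases hp with rfl | rfl | rfl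
              · exact hN3 0 (by simp [P6])
              · exact hN3 1 (by simp [P6])
              · exact hN3 2 (by simp [P6])
            · rw [hN']
              exact Finset.filter_subset _ _
          have h5 : Disjoint ({(0, 3), (1, 3), (2, 3)} : Finset (Fin 4 × Fin 4)) N' := by
            rw [Finset.disjoint_left]
            intro p hp hpN'
            rw [hN', Finset.mem_filter] at hpN'
            simp only [Finset.mem_insert, Finset.mem_singleton] at hp
            rcases hp with rfl | rfl | rfl <;> exact hpN'.2 rfl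
          have h6 := Finset.card_le_card h4
          rw [Finset.card_union_of_disjoint h5] at h6
          have h7 : ({(0, 3), (1, 3), (2, 3)} : Finset (Fin 4 × Fin 4)).card = 3 := by decide
          omega
        rcases hT with hT | hT
        · omega
        · have hq := allL_mem hT (tl_mem hm h01 h12 h2m)
          unfold tok at hq
          have hbit : ∀ c, (tm (w (key (f 0))) (w (key (f 1))) (w (key (f 2)))).testBit c
              = true → ∃ p ∈ P6, p.2 ≠ 3 ∧ c = w (key (f p.1)) + w (key (f p.2)) := by
            intro c hc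
            rw [tm_bit] at hc
            rcases hc with hc | hc | hc
            · exact ⟨(0, 1), by simp [P6], by decide, hc⟩
            · exact ⟨(0, 2), by simp [P6], by decide, hc⟩
            · exact ⟨(1, 2), by simp [P6], by decide, hc⟩
          have hle2 : ∀ p : Fin 4 × Fin 4, p.2 ≠ 3 → key (f p.2) < m := by
            intro p hp
            have h8 : p.2 ≤ 2 := by
              have h9 := p.2.isLt
              have h10 : p.2.val ≠ 3 := fun h => hp (Fin.ext h)
              rw [Fin.le_def]
              show p.2.val ≤ 2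
              omega
            have : key (f p.2) ≤ key (f 2) := hfm.monotone h8
            omega
          rw [bor_iff, bnot_iff] at hq
          rcases hq with hq | hq
          · obtain ⟨c, hc⟩ := exists_bit hq
            rw [land_bit] at hc
            obtain ⟨p, hp, hp3, rfl⟩ := hbit c hc.1
            exact hnr p hp ((hlab p hp (hle2 p hp3) R).mpr hc.2)
          · have h4 := atL_card hq (N'.image fun p => w (key (f p.1)) + w (key (f p.2))) (by
              intro c hc
              rw [diff_bit] at hc
              obtain ⟨p, hp, hp3, rfl⟩ := hbit c hc.1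
              refine Finset.mem_image.mpr ⟨p, ?_, rfl⟩
              rw [hN', hNdef, Finset.mem_filter, Finset.mem_filter]
              exact ⟨⟨hp, fun hB => hc.2 ((hlab p hp (hle2 p hp3) B).mp hB)⟩, hp3⟩)
            have h5 : (N'.image fun p => w (key (f p.1)) + w (key (f p.2))).card ≤ N'.card :=
              Finset.card_image_le
            omega
      · have h4 : ({(0, 2), (1, 2), (0, 3), (1, 3), (2, 3)} : Finset (Fin 4 × Fin 4)) ⊆ N := by
          intro p hp
          simp only [Finset.mem_insert, Finset.mem_singleton] at hp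
          rw [hNdef, Finset.mem_filter]
          rcases hp with rfl | rfl | rfl | rfl | rfl
          · exact ⟨by simp [P6], hout 0 2 h2m⟩
          · exact ⟨by simp [P6], hout 1 2 h2m⟩
          · exact ⟨by simp [P6], hout 0 3 h3m⟩
          · exact ⟨by simp [P6], hout 1 3 h3m⟩
          · exact ⟨by simp [P6], hout 2 3 h3m⟩
        have h5 := Finset.card_le_card h4
        have h6 : ({(0, 2), (1, 2), (0, 3), (1, 3), (2, 3)} : Finset (Fin 4 × Fin 4)).card = 5 := by
          decide
        omega

end Pool.Agent.RG4
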