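import Pool.Agent.RG4.Chk
import Pool.Agent.RG4.Lower

/-!
# Soundness of the certificate checker (MP_2d204b_co), 1: masks
-/

set_option autoImplicit false

namespace Pool.Agent.RG4

/-! ## Boolean functions -/

theorem band_iff (a b : Bool) : band a b = true ↔ a = true ∧ b = true := by
  cases a <;> cases b <;> simp [band]

theorem bor_iff (a b : Bool) : bor a b = true ↔ a = true ∨ b = true := by
  cases a <;> cases b <;> simp [bor]

theorem bnot_iff (a : Bool) : bnot a = true ↔ a = false := by
  cases a <;> simp [bnot]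

theorem bz_iff (a : ℕ) : bz a = true ↔ a = 0 := by
  unfold bz
  rw [Nat.beq_eq]

theorem beq_iff (a b : ℕ) : Nat.beq a b = true ↔ a = b := by
  rw [Nat.beq_eq]

theorem beq_iff_false (a b : ℕ) : Nat.beq a b = false ↔ a ≠ b := by
  rw [← not_iff_not, Bool.not_eq_false, beq_iff, not_not]

theorem ble_iff (a b : ℕ) : Nat.ble a b = true ↔ a ≤ b := by
  rw [Nat.ble_eq]

theorem ble_iff_false (a b : ℕ) : Nat.ble a b = false ↔ ¬ a ≤ b := by
  rw [← not_iff_not, Bool.not_eq_false, ble_iff, not_not]

theorem bz_iff_false (a : ℕ) : bz a = false ↔ a ≠ 0 := by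
  rw [← not_iff_not, Bool.not_eq_false, bz_iff, not_not]

theorem sub_iff (a b : ℕ) : sub a b = true ↔ a &&& b = a := by
  unfold sub
  rw [beq_iff]
  rfl

/-! ## Masks -/

theorem sub_bit {a b : ℕ} (h : sub a b = true) {c : ℕ} (hc : a.testBit c = true) :
    b.testBit c = true := by
  rw [sub_iff] at h
  rw [← h, Nat.testBit_and, Bool.and_eq_true] at hc
  exact hc.2

theorem sub_of_bit {a b : ℕ} (h : ∀ c, a.testBit c = true → b.testBit c = true) :
    sub a b = true := by
  rw [sub_iff]
  apply Nat.eq_of_testBit_eq
  intro c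
  rw [Nat.testBit_and]
  cases h1 : a.testBit c with
  | false => simp
  | true => simp [h c h1]

theorem bt_bit (c d : ℕ) : (bt c).testBit d = true ↔ c = d := by
  have h : bt c = 2 ^ c := by
    show 1 <<< c = 2 ^ c
    rw [Nat.one_shiftLeft]
  rw [h, Nat.testBit_two_pow]
  simp

theorem lor_bit (a b c : ℕ) : (Nat.lor a b).testBit c = true ↔ a.testBit c = true ∨ b.testBit c = true := by
  show (a ||| b).testBit c = true ↔ _
  rw [Nat.testBit_or, Bool.or_eq_true]

theorem land_bit (a b c : ℕ) : (Nat.land a b).testBit c = true ↔ a.testBit c = true ∧ b.testBit c = true := by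
  show (a &&& b).testBit c = true ↔ _
  rw [Nat.testBit_and, Bool.and_eq_true]

/-- the digits of `q ^^^ (q &&& B)` -/
theorem diff_bit (q B c : ℕ) : (Nat.xor q (Nat.land q B)).testBit c = true ↔
    q.testBit c = true ∧ ¬ B.testBit c = true := by
  show (q ^^^ (q &&& B)).testBit c = true ↔ _
  rw [Nat.testBit_xor, Nat.testBit_and]
  cases q.testBit c <;> cases B.testBit c <;> simp

theorem exists_bit {a : ℕ} (h : bz a = false) : ∃ c, a.testBit c = true := by
  rw [bz_iff_false] at h
  by_contra hc
  push Not at hc
  apply h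
  apply Nat.eq_of_testBit_eq
  intro c
  simpa using hc c

theorem no_bit {a : ℕ} (h : bz a = true) (c : ℕ) : ¬ a.testBit c = true := by
  rw [bz_iff] at h
  rw [h]
  simp

/-- `strip` clears one digit -/
theorem strip_bit {d : ℕ} (h : d ≠ 0) : ∃ t, d.testBit t = true ∧
    ∀ c, (strip d).testBit c = true → d.testBit c = true ∧ c ≠ t := by
  show ∃ t, d.testBit t = true ∧ ∀ c, (d &&& (d - 1)).testBit c = true → d.testBit c = true ∧ c ≠ t
  induction d using Nat.strong_induction_on with
  | _ d ih =>
    rcases Nat.even_or_odd' d with ⟨q, rfl | rfl⟩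
    · have hq : q ≠ 0 := by omega
      obtain ⟨t, ht, h1⟩ := ih q (by omega) hq
      refine ⟨t + 1, ?_, ?_⟩
      · rw [Nat.testBit_succ]
        simpa using ht
      · intro c hc
        have e1 : 2 * q - 1 = 2 * (q - 1) + 1 := by omega
        rw [e1] at hc
        cases c with
        | zero =>
          rw [Nat.testBit_and] at hc
          simp at hc
        | succ c =>
          rw [Nat.testBit_and, Nat.testBit_succ, Nat.testBit_succ] at hc
          have e2 : 2 * q / 2 = q := by omega
          have e3 : (2 * (q - 1) + 1) / 2 = q - 1 := by omega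
          rw [e2, e3, ← Nat.testBit_and] at hc
          obtain ⟨h2, h3⟩ := h1 c hc
          refine ⟨?_, by omega⟩
          rw [Nat.testBit_succ, e2]
          exact h2
    · refine ⟨0, by simp, ?_⟩
      intro c hc
      have e1 : 2 * q + 1 - 1 = 2 * q := by omega
      rw [e1, Nat.testBit_and] at hc
      cases c with
      | zero => simp at hc
      | succ c =>
        rw [Bool.and_eq_true] at hc
        exact ⟨hc.1, by omega⟩

theorem atL_card {k d : ℕ} (h : atL k d = true) (S : Finset ℕ)
    (hS : ∀ c, d.testBit c = true → c ∈ S) : k ≤ S.card := by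
  induction k generalizing d S with
  | zero => exact Nat.zero_le _
  | succ k ih =>
    have h' : band (bnot (bz d)) (atL k (strip d)) = true := h
    rw [band_iff, bnot_iff, bz_iff_false] at h'
    obtain ⟨t, ht, h1⟩ := strip_bit h'.1
    have h2 := ih h'.2 (S.erase t) (fun c hc => by
      obtain ⟨h3, h4⟩ := h1 c hc
      exact Finset.mem_erase.mpr ⟨h4, hS c h3⟩)
    rw [Finset.card_erase_of_mem (hS t ht)] at h2
    have h3 : 0 < S.card := Finset.card_pos.mpr ⟨t, hS t ht⟩
    omega

theorem allL_mem {f : ℕ → Bool} {l : List ℕ} (h : allL f l = true) {q : ℕ} (hq : q ∈ l) :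
    f q = true := by
  induction l with
  | nil => simp at hq
  | cons a l ih =>
    have h' : band (f a) (allL f l) = true := h
    rw [band_iff] at h'
    rcases List.mem_cons.mp hq with rfl | h1
    · exact h'.1
    · exact ih h'.2 h1

end Pool.Agent.RG4
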