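import Pool.Agent.RG4.Node

/-!
# Soundness of the certificate checker (MP_2d204b_co), 7: the three kinds of moves
-/

set_option autoImplicit false

namespace Pool.Agent.RG4

/-- adding a pair to the mask adds an edge -/
theorem img_add {n M A B i j : ℕ} {ψ : ℕ → Fin n} {X : Set (Sym2 (Fin n))} (hM : M < 15)
    (hi : i < M) (hj : j < M) (hij : i ≠ j) (hB : B = Nat.lor A (bt (w i + w j))) :
    img M ψ B ∪ X = insert s(ψ i, ψ j) (img M ψ A ∪ X) := by
  rw [hB, img_insert hM hi hj hij, Set.insert_union]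

/-- the pairs of labels `< m` are pairs of labels `< M` -/
theorem ap_mono {m M : ℕ} (h : m ≤ M) (hM : M < 15) {A : ℕ} (hA : sub A (nth 0 APs m) = true) :
    sub A (nth 0 APs M) = true := by
  apply sub_of_bit
  intro c hc
  obtain ⟨i, j, hij, hj, h1⟩ := (ap_bit (by omega)).mp (sub_bit hA hc)
  exact (ap_bit hM).mpr ⟨i, j, hij, by omega, h1⟩

theorem chk1_sound {T : ℕ → ℕ} {t : ℕ} (hT : ∀ j, j < t → GoodE (T j)) {n m x nb r R B Z D : ℕ}
    (hn : 20 ≤ n) {ψ : ℕ → Fin n} {X : Finset (Sym2 (Fin n))} (h : Inv m x nb ψ X R B Z)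
    (hc : chk1 T t m r x R B Z D = true) : Wn r (img m ψ R) (img m ψ B ∪ ↑X) := by
  classical
  -- the checks
  obtain ⟨c, hcd⟩ : ∃ c, c = Nat.land D 65535 := ⟨_, rfl⟩
  obtain ⟨D0, hD0⟩ : ∃ D0, D0 = Nat.shiftRight D 24 := ⟨_, rfl⟩
  obtain ⟨D1, hD1⟩ : ∃ D1, D1 = Nat.shiftRight D 168 := ⟨_, rfl⟩
  have hc' : band (sub (bt c) (nth 0 APs (m + 2)))
      (band (bz (Nat.land (bt c) (Nat.lor R B)))
      (band (sub (Nat.land (bt c) (nth 0 APs m)) Z)
      (band (Nat.ble (rid D0 + 1) t)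
      (band (Nat.ble (fr (T (rid D0)) + 1) r)
      (band (Nat.ble (x + 1) (fx (T (rid D0))))
      (band (refok (T (rid D0)) (rP D0) (nth 0 WMs (m + 2)) (nth 0 APs m) r x (Nat.lor R (bt c)) B Z)
      (band (sub (mm (rP D0) (fnZ (T (rid D0))) (fDZ (T (rid D0))))
         (Nat.lor (Nat.lor (Nat.lor R (bt c)) B) (rm (dg D 16) D1)))
        (reps T t (nth 0 WMs (m + 2)) (nth 0 APs m) r x (Nat.lor R (bt c)) B Z (dg D 16) D1))))))))
        = true := by
    rw [hcd, hD0, hD1]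
    exact hc
  rw [band_iff, band_iff, band_iff, band_iff, band_iff, band_iff, band_iff, band_iff, ble_iff,
    ble_iff, ble_iff] at hc'
  obtain ⟨c1, c2, c3, c4, c5, c6, c7, c8, c9⟩ := hc'
  have hm := h.hm
  have hx := h.hx
  have hX := h.hX
  -- fresh vertices
  obtain ⟨A, hA, hAX⟩ := exists_cover X
  obtain ⟨ψ', e1, hψ', f1, f2⟩ := exists_fresh h.hψ A (by omega)
  have hfr : ∀ e ∈ X, ∀ i, m ≤ i → i < m + 2 → ψ' i ∉ e := by
    intro e he i hi1 hi2 hie
    have h1 := hAX e he _ hie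
    rcases Nat.lt_or_ge m i with h2 | h2
    · have h3 : i = m + 1 := by omega
      rw [h3] at h1
      exact f2 h1
    · have h3 : i = m := by omega
      rw [h3] at h1
      exact f1 h1
  have eR : img m ψ R = img (m + 2) ψ' R :=
    img_congr (by omega) (by omega) h.hR (fun i hi => (e1 i hi).symm)
  have eB : img m ψ B = img (m + 2) ψ' B :=
    img_congr (by omega) (by omega) h.hB (fun i hi => (e1 i hi).symm)
  have hXZ : ∀ e ∈ X, e ∉ img m ψ' Z := by
    rw [← img_congr' e1]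
    exact h.hXZ
  rw [eR, eB]
  -- the move
  obtain ⟨a, b, hab, hb, rfl⟩ := (ap_bit (by omega : m + 2 < 15)).mp
    (sub_bit c1 ((bt_bit c c).mpr rfl))
  have ha : a < m + 2 := by omega
  have hab' : a ≠ b := by omega
  have c2' := no_bit c2 (w a + w b)
  rw [land_bit, lor_bit] at c2'
  have hnR : ¬ R.testBit (w a + w b) = true := fun h1 => c2' ⟨(bt_bit _ _).mpr rfl, Or.inl h1⟩
  have hnB : ¬ B.testBit (w a + w b) = true := fun h1 => c2' ⟨(bt_bit _ _).mpr rfl, Or.inr h1⟩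
  have hmem : s(ψ' a, ψ' b) ∈ img (m + 2) ψ' (bt (w a + w b)) :=
    (mem_img hψ' ha hb hab').mpr ((bt_bit _ _).mpr rfl)
  have heX : s(ψ' a, ψ' b) ∉ X := fun he =>
    zone_sound (by omega) (by omega) c3 hXZ hfr _ he hmem
  have hins := img_insert (ψ := ψ') (A := R) (by omega : m + 2 < 15) ha hb hab'
  have hXsR : ∀ e ∈ X, e ∉ img (m + 2) ψ' (Nat.lor R (bt (w a + w b))) := by
    intro e he
    rw [hins]
    rintro (h1 | h1)
    · rw [h1] at he
      exact heX he
    · rw [← eR] at h1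
      exact h.hXR e he h1
  obtain ⟨r', rfl⟩ : ∃ r', r = r' + 1 := ⟨r - 1, by omega⟩
  have hzone : ∀ Z' : ℕ, (x = 0 ∨ sub (Nat.land Z' (nth 0 APs m)) Z = true) →
      ∀ e ∈ X, e ∉ img (m + 2) ψ' Z' := by
    intro Z' hZ'
    rcases hZ' with h1 | h1
    · have h2 : X = ∅ := Finset.card_eq_zero.mp (by omega)
      rw [h2]
      intro e he
      exact absurd he (Finset.notMem_empty e)
    · exact zone_sound (by omega) (by omega) h1 hXZ hfr
  have hS0 := hT _ (show rid D0 < t by omega)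
  have c7' := (refok_iff _ _ _ _ _ _ _ _ _).mp c7
  have hpass := ref_sound hS0 (by omega : m + 2 < 15) c7 hn hψ' (by omega) hXsR
    (hzone _ c7'.2.2.2.2.2)
  refine Wn.step (e := s(ψ' a, ψ' b)) (pair_not_diag hψ' ha hb hab') ?_ ?_ ?_ ?_
  · rw [mem_img hψ' ha hb hab']
    exact hnR
  · rintro (h1 | h1)
    · exact hnB ((mem_img hψ' ha hb hab').mp h1)
    · exact heX h1
  · rw [← hins]
    exact hpass.mono_le (by omega)
  · intro f hfd hfR hfB
    rw [← hins] at hfR ⊢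
    by_cases hfZ : f ∈ img (m + 2) ψ' (mm (rP D0) (fnZ (T (rid D0))) (fDZ (T (rid D0))))
    · obtain ⟨i, j, hi, hj, hij, h1, rfl⟩ := hfZ
      have h2 := sub_bit c8 h1
      rw [lor_bit, lor_bit (Nat.lor R _)] at h2
      rcases h2 with (h2 | h2) | h2
      · exact absurd ((mem_img hψ' hi hj hij).mpr h2) hfR
      · exact absurd (Or.inl ((mem_img hψ' hi hj hij).mpr h2)) hfB
      · obtain ⟨k, P, hk, h3⟩ := reps_sound _ _ c9 _ h2
        have h3' := (refok_iff _ _ _ _ _ _ _ _ _).mp h3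
        have h4 := ref_sound (hT k hk) (by omega : m + 2 < 15) h3 hn hψ' (by omega) hXsR
          (hzone _ h3'.2.2.2.2.2)
        rw [img_add (X := (↑X : Set (Sym2 (Fin n)))) (by omega) hi hj hij rfl] at h4
        exact h4.mono_le h3'.1
    · have h5 : (insert f X).card ≤ fx (T (rid D0)) := by
        have := Finset.card_insert_le f X
        omega
      have h6 := ref_sound (X := insert f X) hS0 (by omega : m + 2 < 15) c7 hn hψ' h5
        (by
          intro e he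
          rcases Finset.mem_insert.mp he with rfl | he
          · exact hfR
          · exact hXsR e he)
        (by
          intro e he
          rcases Finset.mem_insert.mp he with rfl | he
          · exact hfZ
          · exact hzone _ c7'.2.2.2.2.2 e he)
      rw [Finset.coe_insert, Set.union_insert] at h6
      exact h6.mono_le (by omega)

/-- every reply is, up to the choice of the fresh vertices, one of the listed ones -/
theorem exists_reply {n m : ℕ} (hm : m < 13) (hn : m + 2 ≤ n) {ψ : ℕ → Fin n}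
    (hψ : Set.InjOn ψ {i | i < m}) {f : Sym2 (Fin n)} (hf : ¬ f.IsDiag) :
    ∃ ψ' : ℕ → Fin n, (∀ i, i < m → ψ' i = ψ i) ∧ Set.InjOn ψ' {i | i < m + 2} ∧
      ∃ a b, a < m + 2 ∧ b < m + 2 ∧ a ≠ b ∧ f = s(ψ' a, ψ' b) ∧
        (nth 0 FRs m).testBit (w a + w b) = true := by
  classical
  induction f using Sym2.ind with
  | _ y z =>
    rw [Sym2.mk_isDiag_iff] at hf
    -- one labelled end
    have one : ∀ i, i < m → ∀ z : Fin n, (∀ j, j < m → ψ j ≠ z) →
        ∃ ψ' : ℕ → Fin n, (∀ i, i < m → ψ' i = ψ i) ∧ Set.InjOn ψ' {i | i < m + 2} ∧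
          s(ψ i, z) = s(ψ' i, ψ' m) := by
      intro i hi z hz
      have hcard : (insert z ((Finset.range m).image ψ)).card ≤ m + 1 := by
        refine (Finset.card_insert_le _ _).trans ?_
        have : ((Finset.range m).image ψ).card ≤ m := by
          simpa using Finset.card_image_le (s := Finset.range m) (f := ψ)
        omega
      obtain ⟨v, hv⟩ := exists_notMem _ (lt_of_le_of_lt hcard (by omega : m + 1 < n))
      rw [Finset.mem_insert, not_or] at hv
      obtain ⟨ψ', h1, h2, h3, h4⟩ := ext_inj hψ hz (fun j hj h =>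
        hv.2 (Finset.mem_image.mpr ⟨j, Finset.mem_range.mpr hj, h⟩)) (fun h => hv.1 h.symm)
      exact ⟨ψ', h1, h4, by rw [h1 i hi, h2]⟩
    by_cases hy : ∃ i, i < m ∧ ψ i = y
    · obtain ⟨i, hi, rfl⟩ := hy
      by_cases hz : ∃ j, j < m ∧ ψ j = z
      · obtain ⟨j, hj, rfl⟩ := hz
        obtain ⟨ψ', h1, h2, -, -⟩ := exists_fresh hψ ∅ (by simpa using hn)
        have hij : i ≠ j := fun h => hf (by rw [h])
        exact ⟨ψ', h1, h2, i, j, by omega, by omega, hij, by rw [h1 i hi, h1 j hj],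
          fr_bit1 hm hi hj hij⟩
      · obtain ⟨ψ', h1, h2, h3⟩ := one i hi z (fun j hj h => hz ⟨j, hj, h⟩)
        exact ⟨ψ', h1, h2, i, m, by omega, by omega, by omega, h3, fr_bit2 hm hi⟩
    · by_cases hz : ∃ j, j < m ∧ ψ j = z
      · obtain ⟨j, hj, rfl⟩ := hz
        obtain ⟨ψ', h1, h2, h3⟩ := one j hj y (fun i hi h => hy ⟨i, hi, h⟩)
        exact ⟨ψ', h1, h2, j, m, by omega, by omega, by omega, by rw [← h3]; exact Sym2.eq_swap,
          fr_bit2 hm hj⟩
      · obtain ⟨ψ', h1, h2, h3, h4⟩ := ext_inj hψ (fun i hi h => hy ⟨i, hi, h⟩)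
          (fun j hj h => hz ⟨j, hj, h⟩) hf
        exact ⟨ψ', h1, h4, m, m + 1, by omega, by omega, by omega, by rw [h2, h3], fr_bit3 hm⟩

theorem chk2_sound {T : ℕ → ℕ} {t : ℕ} (hT : ∀ j, j < t → GoodE (T j)) {n m x nb r R B Z D : ℕ}
    (hn : 20 ≤ n) {ψ : ℕ → Fin n} {X : Finset (Sym2 (Fin n))} (h : Inv m x nb ψ X R B Z)
    (hc : chk2 T t m r x R B Z D = true) : Wn r (img m ψ R) (img m ψ B ∪ ↑X) := by
  classical
  obtain ⟨c, hcd⟩ : ∃ c, c = Nat.land D 65535 := ⟨_, rfl⟩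
  obtain ⟨m', hm'd⟩ : ∃ m', m' = dg D 24 := ⟨_, rfl⟩
  obtain ⟨D0, hD0⟩ : ∃ D0, D0 = Nat.shiftRight D 32 := ⟨_, rfl⟩
  obtain ⟨D1, hD1⟩ : ∃ D1, D1 = Nat.shiftRight D 176 := ⟨_, rfl⟩
  have hc' : band (bz x) (band (Nat.ble m m') (band (Nat.ble m' (m + 2))
      (band (Nat.ble m' 12)
      (band (sub (bt c) (nth 0 APs m'))
      (band (bz (Nat.land (bt c) (Nat.lor R B)))
      (band (Nat.ble (rid D0 + 1) t)
      (band (Nat.ble (fr (T (rid D0)) + 1) r)
      (band (refok (T (rid D0)) (rP D0) (nth 0 WMs (m' + 2)) (nth 0 APs m) r x (Nat.lor R (bt c)) B Z)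
      (band (sub (nth 0 FRs m') (Nat.lor (Nat.lor (Nat.lor R (bt c)) B) (rm (dg D 16) D1)))
        (reps T t (nth 0 WMs (m' + 2)) (nth 0 APs m) r x (Nat.lor R (bt c)) B Z (dg D 16) D1))))))))))
        = true := by
    rw [hcd, hD0, hD1, hm'd]
    exact hc
  rw [band_iff, band_iff, band_iff, band_iff, band_iff, band_iff, band_iff, band_iff, band_iff,
    band_iff, ble_iff, ble_iff, ble_iff, ble_iff, ble_iff, bz_iff] at hc'
  obtain ⟨c0, c1, c2, c3, c4, c5, c6, c7, c8, c9, c10⟩ := hc'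
  have hX0 : X = ∅ := Finset.card_eq_zero.mp (by have := h.hX; omega)
  subst hX0
  have hm := h.hm
  -- the first fresh vertices
  obtain ⟨ψ₁, e1, hψ₁', -, -⟩ := exists_fresh h.hψ ∅ (by simp; omega)
  have hψ₁ : Set.InjOn ψ₁ {i | i < m'} := inj_on_mono hψ₁' c2
  have eR : img m ψ R = img m' ψ₁ R :=
    img_congr (by omega) (by omega) h.hR (fun i hi => (e1 i hi).symm)
  have eB : img m ψ B = img m' ψ₁ B :=
    img_congr (by omega) (by omega) h.hB (fun i hi => (e1 i hi).symm)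
  rw [eR, eB]
  obtain ⟨a, b, hab, hb, rfl⟩ := (ap_bit (by omega : m' < 15)).mp
    (sub_bit c4 ((bt_bit c c).mpr rfl))
  have ha : a < m' := by omega
  have hab' : a ≠ b := by omega
  have c5' := no_bit c5 (w a + w b)
  rw [land_bit, lor_bit] at c5'
  have hnR : ¬ R.testBit (w a + w b) = true := fun h1 => c5' ⟨(bt_bit _ _).mpr rfl, Or.inl h1⟩
  have hnB : ¬ B.testBit (w a + w b) = true := fun h1 => c5' ⟨(bt_bit _ _).mpr rfl, Or.inr h1⟩
  have hins := img_insert (ψ := ψ₁) (A := R) (by omega : m' < 15) ha hb hab'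
  have hsR : sub (Nat.lor R (bt (w a + w b))) (nth 0 APs m') = true :=
    sub_lor_bt (ap_mono c1 (by omega) h.hR) (ap_bit_of (by omega) ha hb hab')
  have hsB : sub B (nth 0 APs m') = true := ap_mono c1 (by omega) h.hB
  obtain ⟨r', rfl⟩ : ∃ r', r = r' + 1 := ⟨r - 1, by omega⟩
  have hem : ∀ A : Set (Sym2 (Fin n)), ∀ e ∈ (∅ : Finset (Sym2 (Fin n))), e ∉ A :=
    fun A e he => absurd he (Finset.notMem_empty e)
  refine Wn.step (e := s(ψ₁ a, ψ₁ b)) (pair_not_diag hψ₁ ha hb hab') ?_ ?_ ?_ ?_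
  · rw [mem_img hψ₁ ha hb hab']
    exact hnR
  · rintro (h1 | h1)
    · exact hnB ((mem_img hψ₁ ha hb hab').mp h1)
    · exact absurd h1 (by simp)
  · obtain ⟨ψ₂, e2, hψ₂, -, -⟩ := exists_fresh hψ₁ ∅ (by simp; omega)
    have h1 := ref_sound (X := ∅) (hT _ (show rid D0 < t by omega)) (by omega : m' + 2 < 15) c8 hn
      hψ₂ (by simp) (hem _) (hem _)
    rw [← img_congr (ψ := ψ₁) (M := m' + 2) (by omega) (by omega) hsR (fun i hi => (e2 i hi).symm),
      ← img_congr (ψ := ψ₁) (M := m' + 2) (by omega) (by omega) hsB (fun i hi => (e2 i hi).symm), hins] at h1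
    exact h1.mono_le (by omega)
  · intro f hfd hfR hfB
    obtain ⟨ψ₂, e2, hψ₂, i, j, hi, hj, hij, rfl, hbit⟩ := exists_reply (by omega) (by omega) hψ₁ hfd
    rw [← hins, img_congr (ψ := ψ₁) (M := m' + 2) (by omega) (by omega) hsR (fun i hi => (e2 i hi).symm)]
      at hfR ⊢
    rw [img_congr (ψ := ψ₁) (M := m' + 2) (by omega) (by omega) hsB (fun i hi => (e2 i hi).symm)]
      at hfB ⊢
    have h2 := sub_bit c9 hbit
    rw [lor_bit, lor_bit (Nat.lor R _)] at h2
    rcases h2 with (h2 | h2) | h2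
    · exact absurd ((mem_img hψ₂ hi hj hij).mpr h2) hfR
    · exact absurd (Or.inl ((mem_img hψ₂ hi hj hij).mpr h2)) hfB
    · obtain ⟨k, P, hk, h3⟩ := reps_sound _ _ c10 _ h2
      have h3' := (refok_iff _ _ _ _ _ _ _ _ _).mp h3
      have h4 := ref_sound (X := ∅) (hT k hk) (by omega : m' + 2 < 15) h3 hn hψ₂ (by simp) (hem _)
        (hem _)
      rw [img_add (X := (↑(∅ : Finset (Sym2 (Fin n))) : Set (Sym2 (Fin n)))) (by omega) hi hj hij
        rfl] at h4
      exact h4.mono_le h3'.1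

theorem chk3_sound {T : ℕ → ℕ} {t : ℕ} (hT : ∀ j, j < t → GoodE (T j)) {n m x nb r R B Z D : ℕ}
    (hn : 20 ≤ n) {ψ : ℕ → Fin n} {X : Finset (Sym2 (Fin n))} (h : Inv m x nb ψ X R B Z)
    (hc : chk3 T t m r x nb R B Z D = true) : Wn r (img m ψ R) (img m ψ B ∪ ↑X) := by
  obtain ⟨c, hcd⟩ : ∃ c, c = Nat.land D 65535 := ⟨_, rfl⟩
  obtain ⟨D0, hD0⟩ : ∃ D0, D0 = Nat.shiftRight D 48 := ⟨_, rfl⟩
  have hc' : band (mvok (nth 0 APs m) R B Z (bt c))
      (band (sub (bt (dg D 16 + dg D 24)) Z)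
      (band (comp (nth 0 WMs m) (nth 0 APs m) (Nat.lor R (bt c)) B (dg D 16) (dg D 24) (dg D 32)
        (dg D 40))
      (band (Nat.ble 1 r)
      (band (safe (nth [] QLs m) (nth [] TLs m) x nb (Nat.lor R (bt c)) B Z)
      (band (Nat.ble (rid D0 + 1) t)
       (refok (T (rid D0)) (rP D0) (nth 0 WMs m) (nth 0 APs m) r x (Nat.lor R (bt c))
         (Nat.lor B (bt (dg D 16 + dg D 24))) Z)))))) = true := by
    rw [hcd, hD0]
    exact hc
  rw [band_iff, band_iff, band_iff, band_iff, band_iff, band_iff, ble_iff, ble_iff] at hc'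
  obtain ⟨c1, c2, c3, c4, c5, c6, c7⟩ := hc'
  obtain ⟨r', rfl⟩ : ∃ r', r = r' + 1 := ⟨r - 1, by omega⟩
  have hm := h.hm
  have hX := h.hX
  have c7' := (refok_iff _ _ _ _ _ _ _ _ _).mp c7
  refine h.threat c1 (sub_bit c2 ((bt_bit _ _).mpr rfl)) c3 c5 fun i j hi hj hij hij2 hR' hB' => ?_
  have hzone : ∀ e ∈ X, e ∉ img m ψ (mm (rP D0) (fnZ (T (rid D0))) (fDZ (T (rid D0)))) := by
    rcases c7'.2.2.2.2.2 with h1 | h1
    · have h2 : X = ∅ := Finset.card_eq_zero.mp (by omega)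
      rw [h2]
      intro e he
      exact absurd he (Finset.notMem_empty e)
    · exact zone_sound (by omega) le_rfl h1 h.hXZ (fun e he i hi1 hi2 => absurd hi2 (by omega))
  have h4 := ref_sound (hT _ (show rid D0 < t by omega)) (by omega : m < 15) c7 hn h.hψ (by omega)
    hR'.hXR hzone
  rw [hij2] at h4
  rw [img_add (X := (↑X : Set (Sym2 (Fin n)))) (by omega) hi hj hij rfl] at h4
  exact h4.mono_le c7'.1

end Pool.Agent.RG4
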