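import Pool.Agent.RG4.Defs

/-!
# From winning positions to strategies (MP_2d204b_co)
-/

set_option autoImplicit false

namespace Pool.Agent.RG4

variable {n : ℕ}

/-- the good moves of P1 -/
def Good (r : ℕ) (R B : Set (Sym2 (Fin n))) (e : Sym2 (Fin n)) : Prop :=
  ¬ e.IsDiag ∧ e ∉ R ∧ e ∉ B ∧ (K4 (insert e R) ∨ ∃ r', r = r' + 1 ∧ Wn r' (insert e R) B ∧
    ∀ f : Sym2 (Fin n), ¬ f.IsDiag → f ∉ insert e R → f ∉ B →
      Wn (r' + 1) (insert e R) (insert f B))

theorem Wn.good {r : ℕ} {R B : Set (Sym2 (Fin n))} (h : Wn r R B) : ∃ e, Good r R B e := by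
  cases h with
  | win hB he hr hb hk => exact ⟨_, he, hr, hb, Or.inl hk⟩
  | step he hr hb hp hc => exact ⟨_, he, hr, hb, Or.inr ⟨_, rfl, hp, hc⟩⟩

/-- the move of P1 -/
noncomputable def mv (e₀ : Sym2 (Fin n)) (s : ℕ × Set (Sym2 (Fin n)) × Set (Sym2 (Fin n))) :
    Sym2 (Fin n) :=
  @Classical.epsilon _ ⟨e₀⟩ (Good s.1 s.2.1 s.2.2)

/-- the state after a reply -/
noncomputable def stp (e₀ : Sym2 (Fin n)) (s : ℕ × Set (Sym2 (Fin n)) × Set (Sym2 (Fin n)))
    (x : Option (Sym2 (Fin n))) : ℕ × Set (Sym2 (Fin n)) × Set (Sym2 (Fin n)) :=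
  match x with
  | none => (s.1 - 1, insert (mv e₀ s) s.2.1, s.2.2)
  | some f => (s.1, insert (mv e₀ s) s.2.1, insert f s.2.2)

/-- the state after the replies `h` -/
noncomputable def st (e₀ : Sym2 (Fin n)) (r : ℕ) (h : List (Option (Sym2 (Fin n)))) :
    ℕ × Set (Sym2 (Fin n)) × Set (Sym2 (Fin n)) :=
  h.foldl (stp e₀) (r, ∅, ∅)

/-- the strategy -/
noncomputable def sig (e₀ : Sym2 (Fin n)) (r : ℕ) : Strategy (Fin n) := fun h => mv e₀ (st e₀ r h)

theorem st_nil (e₀ : Sym2 (Fin n)) (r : ℕ) : st e₀ r [] = (r, ∅, ∅) := rfl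

theorem st_concat (e₀ : Sym2 (Fin n)) (r : ℕ) (h : List (Option (Sym2 (Fin n))))
    (x : Option (Sym2 (Fin n))) : st e₀ r (h ++ [x]) = stp e₀ (st e₀ r h) x := by
  unfold st
  rw [List.foldl_append]
  rfl

theorem red_nil {V : Type} (σ : Strategy V) : red σ [] = {σ []} := by
  ext e
  unfold red
  simp only [Set.mem_ofPred_eq, List.prefix_nil, Set.mem_singleton_iff]
  constructor
  · rintro ⟨h', rfl, rfl⟩
    rfl
  · rintro rfl
    exact ⟨[], rfl, rfl⟩

theorem red_concat {V : Type} (σ : Strategy V) (h : List (Option (Sym2 V)))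
    (x : Option (Sym2 V)) : red σ (h ++ [x]) = insert (σ (h ++ [x])) (red σ h) := by
  ext e
  unfold red
  simp only [Set.mem_ofPred_eq, List.prefix_concat_iff, Set.mem_insert_iff]
  constructor
  · rintro ⟨h', rfl | h1, h2⟩
    · exact Or.inl h2.symm
    · exact Or.inr ⟨h', h1, h2⟩
  · rintro (h1 | ⟨h', h1, h2⟩)
    · exact ⟨_, Or.inl rfl, h1.symm⟩
    · exact ⟨h', Or.inr h1, h2⟩

theorem blue_nil {V : Type} : blue ([] : List (Option (Sym2 V))) = ∅ := by
  ext e
  simp [blue]

theorem blue_none {V : Type} (h : List (Option (Sym2 V))) : blue (h ++ [none]) = blue h := by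
  ext e
  simp [blue]

theorem blue_some {V : Type} (h : List (Option (Sym2 V))) (f : Sym2 V) :
    blue (h ++ [some f]) = insert f (blue h) := by
  ext e
  simp only [blue, Set.mem_ofPred_eq, List.mem_append, List.mem_singleton, Option.some.injEq,
    Set.mem_insert_iff]
  tauto

theorem st_blue (e₀ : Sym2 (Fin n)) (r : ℕ) (h : List (Option (Sym2 (Fin n)))) :
    (st e₀ r h).2.2 = blue h := by
  induction h using List.reverseRecOn with
  | nil => rw [st_nil, blue_nil]
  | append_singleton h x ih =>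
    rw [st_concat]
    cases x with
    | none => rw [blue_none, ← ih]; rfl
    | some f => rw [blue_some, ← ih]; rfl

theorem st_red (e₀ : Sym2 (Fin n)) (r : ℕ) (h : List (Option (Sym2 (Fin n)))) :
    red (sig e₀ r) h = insert (sig e₀ r h) (st e₀ r h).2.1 := by
  induction h using List.reverseRecOn with
  | nil =>
    rw [red_nil, st_nil]
    simp
  | append_singleton h x ih =>
    rw [red_concat, ih, st_concat]
    cases x with
    | none => rfl
    | some f => rfl

theorem passes_nil {V : Type} : passes ([] : List (Option (Sym2 V))) = 0 := rfl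

theorem passes_none {V : Type} (h : List (Option (Sym2 V))) :
    passes (h ++ [none]) = passes h + 1 := by
  unfold passes
  rw [List.countP_append]
  rfl

theorem passes_some {V : Type} (h : List (Option (Sym2 V))) (f : Sym2 V) :
    passes (h ++ [some f]) = passes h := by
  unfold passes
  rw [List.countP_append]
  rfl

theorem sig_good {e₀ : Sym2 (Fin n)} {r : ℕ} {h : List (Option (Sym2 (Fin n)))}
    (hw : Wn (st e₀ r h).1 (st e₀ r h).2.1 (st e₀ r h).2.2) :
    Good (st e₀ r h).1 (st e₀ r h).2.1 (st e₀ r h).2.2 (sig e₀ r h) :=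
  @Classical.epsilon_spec_aux _ ⟨e₀⟩ _ hw.good

theorem mem_top_edgeSet (e : Sym2 (Fin n)) :
    e ∈ (⊤ : SimpleGraph (Fin n)).edgeSet ↔ ¬ e.IsDiag := by
  rw [SimpleGraph.edgeSet_top]
  rfl

/-- along the plays the position is winning -/
theorem play_inv {e₀ : Sym2 (Fin n)} {r : ℕ} (hw : Wn r (∅ : Set (Sym2 (Fin n))) ∅)
    {h : List (Option (Sym2 (Fin n)))}
    (hp : Play (⊤ : SimpleGraph (Fin n)) (⊤ : SimpleGraph (Fin 4)) (sig e₀ r) h) :
    Wn (st e₀ r h).1 (st e₀ r h).2.1 (st e₀ r h).2.2 ∧ (st e₀ r h).1 + passes h = r ∧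
      (st e₀ r h).2.1.ncard = h.length := by
  induction hp with
  | start =>
    refine ⟨hw, ?_, ?_⟩
    · rw [st_nil, passes_nil]
      rfl
    · rw [st_nil]
      simp
  | @pass h hp hc ih =>
    obtain ⟨h1, h2, h3⟩ := ih
    rw [contains_iff, st_red] at hc
    obtain ⟨g1, g2, g3, g4⟩ := sig_good h1
    rcases g4 with g4 | ⟨r', g5, g6, g7⟩
    · exact absurd g4 hc
    · rw [st_concat, passes_none]
      have e1 : (stp e₀ (st e₀ r h) none) = ((st e₀ r h).1 - 1,
        insert (sig e₀ r h) (st e₀ r h).2.1, (st e₀ r h).2.2) := rfl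
      rw [e1, g5]
      refine ⟨g6, ?_, ?_⟩
      · simp only
        omega
      · simp only
        rw [Set.ncard_insert_of_notMem g2, h3, List.length_append]
        rfl
  | @claim h f hp hc he hr hb ih =>
    obtain ⟨h1, h2, h3⟩ := ih
    rw [contains_iff, st_red] at hc
    rw [st_red] at hr
    rw [← st_blue e₀ r] at hb
    rw [mem_top_edgeSet] at he
    obtain ⟨g1, g2, g3, g4⟩ := sig_good h1
    rcases g4 with g4 | ⟨r', g5, g6, g7⟩
    · exact absurd g4 hc
    · rw [st_concat, passes_some]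
      have e1 : (stp e₀ (st e₀ r h) (some f)) = ((st e₀ r h).1,
        insert (sig e₀ r h) (st e₀ r h).2.1, insert f (st e₀ r h).2.2) := rfl
      rw [e1, g5]
      refine ⟨g7 f he hr hb, ?_, ?_⟩
      · omega
      · simp only
        rw [Set.ncard_insert_of_notMem g2, h3, List.length_append]
        rfl

theorem st_proper (e₀ : Sym2 (Fin n)) (r : ℕ) (h h' : List (Option (Sym2 (Fin n))))
    (h1 : h' <+: h) (h2 : h' ≠ h) : sig e₀ r h' ∈ (st e₀ r h).2.1 := by
  rcases List.eq_nil_or_concat h with rfl | ⟨g, x, rfl⟩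
  · rw [List.prefix_nil] at h1
    exact absurd h1 h2
  · rw [List.concat_eq_append] at h1 h2 ⊢
    rw [List.prefix_concat_iff] at h1
    rcases h1 with h1 | h1
    · exact absurd h1 h2
    · have h3 : sig e₀ r h' ∈ red (sig e₀ r) g := ⟨h', h1, rfl⟩
      rw [st_red] at h3
      rw [st_concat]
      cases x with
      | none => exact h3
      | some f => exact h3

/-- a winning position gives a strategy with few passes -/
theorem exists_strategy {r : ℕ} (hw : Wn r (∅ : Set (Sym2 (Fin n))) ∅) :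
    ∃ σ : Strategy (Fin n), Winning (⊤ : SimpleGraph (Fin n)) (⊤ : SimpleGraph (Fin 4)) σ ∧
      ∃ m ≤ r, MaxPasses (⊤ : SimpleGraph (Fin n)) (⊤ : SimpleGraph (Fin 4)) σ m := by
  obtain ⟨e₀, -⟩ := hw.good
  refine ⟨sig e₀ r, ⟨?_, ?_, ?_, ?_, ?_⟩, ?_⟩
  · intro h hp
    rw [mem_top_edgeSet]
    exact (sig_good (play_inv hw hp).1).1
  · intro h hp
    rw [← st_blue e₀ r]
    exact (sig_good (play_inv hw hp).1).2.2.1
  · intro h hp h' h1 h2 h3
    have h4 := (sig_good (play_inv hw hp).1).2.1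
    rw [h3] at h4
    exact h4 (st_proper e₀ r h h' h1 h2)
  · intro h hp
    rw [contains_iff, ← st_blue e₀ r]
    exact (play_inv hw hp).1.notK4
  · intro x
    by_contra hcon
    push Not at hcon
    have h1 := (play_inv hw (hcon (Fintype.card (Sym2 (Fin n)) + 1))).2.2
    rw [List.length_map, List.length_range] at h1
    have h2 := Set.ncard_le_card (st e₀ r ((List.range (Fintype.card (Sym2 (Fin n)) + 1)).map x)).2.1
    rw [Nat.card_eq_fintype_card] at h2
    omega
  · have hbdd : ∀ c ∈ {c | ∃ h, Play (⊤ : SimpleGraph (Fin n)) (⊤ : SimpleGraph (Fin 4)) (sig e₀ r) h ∧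
        passes h = c}, c ≤ r := by
      rintro c ⟨h, hp, rfl⟩
      have := (play_inv hw hp).2.1
      omega
    have hne : {c | ∃ h, Play (⊤ : SimpleGraph (Fin n)) (⊤ : SimpleGraph (Fin 4)) (sig e₀ r) h ∧
        passes h = c}.Nonempty := ⟨0, [], Play.start, rfl⟩
    have hmem := Nat.sSup_mem hne ⟨r, hbdd⟩
    exact ⟨_, hbdd _ hmem, hmem, fun c hc => le_csSup ⟨r, hbdd⟩ hc⟩

end Pool.Agent.RG4
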