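import Pool.Agent.RG4.Sound

/-!
# Soundness of the certificate checker (MP_2d204b_co), 8: the table
-/

set_option autoImplicit false

namespace Pool.Agent.RG4

theorem okL_of {m k D K D' : ℕ} (hm : m < 13) (hs : ∀ p ∈ dec k D, p ∈ dec K D')
    (hv : sub (vmk K D') (nth 0 VMs m) = true)
    (hA : ∀ c, (mm W0 k D).testBit c = true → (nth 0 APs m).testBit c = true) :
    okL m (dec k D) := by
  intro p hp
  obtain ⟨i, hi, h1⟩ := (vm_bit (by omega : m < 15)).mp
    (sub_bit hv ((vmk_bit K D' p.1).mpr ⟨p, hs p hp, Or.inl rfl⟩))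
  obtain ⟨j, hj, h2⟩ := (vm_bit (by omega : m < 15)).mp
    (sub_bit hv ((vmk_bit K D' p.2).mpr ⟨p, hs p hp, Or.inr rfl⟩))
  have h3 := hA _ ((mm_bit W0 k D _).mpr ⟨p, hp, rfl⟩)
  rw [h1, h2, w0_spec i (by omega), w0_spec j (by omega),
    ap_bit_iff (by omega) (by omega) (by omega)] at h3
  exact ⟨i, j, hi, hj, h3.2.2, Prod.ext h1 h2⟩

theorem fDB_eq (S : ℕ) : fDB S = fD S >>> (16 * fnR S) := by
  show S >>> (48 + 16 * fnR S) = (S >>> 48) >>> (16 * fnR S)
  rw [Nat.shiftRight_add]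

theorem fDZ_eq (S : ℕ) : fDZ S = fDB S >>> (16 * fnB S) := by
  show S >>> (48 + 16 * (fnR S + fnB S)) = (S >>> (48 + 16 * fnR S)) >>> (16 * fnB S)
  rw [← Nat.shiftRight_add]
  congr 1
  ring

/-- the check of an entry is sound -/
theorem chk_sound {T : ℕ → ℕ} {t pd : ℕ} (hT : ∀ j, j < t → GoodE (T j))
    (h : chk T t pd = true) : GoodE (T t) := by
  classical
  obtain ⟨S, hS⟩ : ∃ S, S = T t := ⟨_, rfl⟩
  rw [← hS]
  obtain ⟨R, hR⟩ : ∃ R, R = mm W0 (fnR S) (fD S) := ⟨_, rfl⟩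
  obtain ⟨B, hB⟩ : ∃ B, B = mm W0 (fnB S) (fDB S) := ⟨_, rfl⟩
  obtain ⟨Zm, hZm⟩ : ∃ Zm, Zm = mm W0 (fnZ S) (fDZ S) := ⟨_, rfl⟩
  obtain ⟨Z, hZ⟩ : ∃ Z, Z = cN (bz (fx S)) (nth 0 APs (fm S)) Zm := ⟨_, rfl⟩
  have h' : band (Nat.ble (fm S) 12) (band (Nat.ble (fx S) 3)
      (band (sub (vmk (fnR S + (fnB S + fnZ S)) (fD S)) (nth 0 VMs (fm S)))
      (band (sub (Nat.lor R (Nat.lor B Zm)) (nth 0 APs (fm S)))
      (band (bz (Nat.land R B))
      (chkM T t S R B Z (dg pd 0) (Nat.shiftRight pd 8)))))) = true := by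
    rw [hZ, hR, hB, hZm, hS]
    exact h
  rw [band_iff, band_iff, band_iff, band_iff, band_iff, ble_iff, ble_iff] at h'
  obtain ⟨c1, c2, c3, c4, c5, c6⟩ := h'
  have hm : fm S < 13 := by omega
  have bR : ∀ c, R.testBit c = true → (nth 0 APs (fm S)).testBit c = true := fun c hc =>
    sub_bit c4 ((lor_bit _ _ _).mpr (Or.inl hc))
  have bB : ∀ c, B.testBit c = true → (nth 0 APs (fm S)).testBit c = true := fun c hc =>
    sub_bit c4 ((lor_bit _ _ _).mpr (Or.inr ((lor_bit _ _ _).mpr (Or.inl hc))))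
  have bZ : ∀ c, Zm.testBit c = true → (nth 0 APs (fm S)).testBit c = true := fun c hc =>
    sub_bit c4 ((lor_bit _ _ _).mpr (Or.inr ((lor_bit _ _ _).mpr (Or.inr hc))))
  have d1 : dec (fnR S + (fnB S + fnZ S)) (fD S) = dec (fnR S) (fD S) ++
      (dec (fnB S) (fDB S) ++ dec (fnZ S) (fDZ S)) := by
    rw [dec_append, dec_append, ← fDB_eq, ← fDZ_eq]
  have okR : okL (fm S) (dec (fnR S) (fD S)) := by
    refine okL_of hm (fun p hp => ?_) c3 (by rw [← hR]; exact bR)
    rw [d1]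
    exact List.mem_append_left _ hp
  have okB : okL (fm S) (dec (fnB S) (fDB S)) := by
    refine okL_of hm (fun p hp => ?_) c3 (by rw [← hB]; exact bB)
    rw [d1]
    exact List.mem_append_right _ (List.mem_append_left _ hp)
  have okZ : okL (fm S) (dec (fnZ S) (fDZ S)) := by
    refine okL_of hm (fun p hp => ?_) c3 (by rw [← hZm]; exact bZ)
    rw [d1]
    exact List.mem_append_right _ (List.mem_append_right _ hp)
  refine ⟨hm, okR, okB, okZ, fun n hn ψ hψ X hX hXR hXZ => ?_⟩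
  have eR := es_img_id (ψ := ψ) (by omega : fm S < 15) okR
  have eB := es_img_id (ψ := ψ) (by omega : fm S < 15) okB
  have eZ := es_img_id (ψ := ψ) (by omega : fm S < 15) okZ
  rw [← hR] at eR
  rw [← hB] at eB
  rw [← hZm] at eZ
  rw [eR] at hXR ⊢
  rw [eB]
  rw [eZ] at hXZ
  have hI : Inv (fm S) (fx S) (fnB S) ψ X R B Z := by
    refine ⟨hm, c2, hψ, hX, sub_of_bit bR, sub_of_bit bB, c5, hXR, ?_, ?_⟩
    · intro e he
      have hx : fx S ≠ 0 := by
        intro h0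
        rw [h0] at hX
        have h1 : X = ∅ := Finset.card_eq_zero.mp (by omega)
        rw [h1] at he
        exact absurd he (Finset.notMem_empty e)
      have hz : Z = Zm := by
        rw [hZ, (bz_iff_false _).mpr hx]
        rfl
      rw [hz]
      exact hXZ e he
    · refine ⟨((dec (fnB S) (fDB S)).map fun p => s(ψ (p.1 / 8), ψ (p.2 / 8))).toFinset, ?_, ?_⟩
      · refine (List.toFinset_card_le _).trans ?_
        rw [List.length_map, dec_length]
      · rw [← eB]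
        rintro e ⟨p, hp, rfl⟩
        rw [Finset.mem_coe, List.mem_toFinset, List.mem_map]
        exact ⟨p, hp, rfl⟩
  obtain ⟨D, hD⟩ : ∃ D, D = Nat.shiftRight pd 8 := ⟨_, rfl⟩
  obtain ⟨md, hmd⟩ : ∃ md, md = dg pd 0 := ⟨_, rfl⟩
  rw [← hD, ← hmd] at c6
  match md with
  | 0 =>
    have c7 : band (Nat.ble 1 (fr S)) (vc (nth [] QLs (fm S)) (nth [] TLs (fm S))
        (nth 0 WMs (fm S)) (nth 0 APs (fm S)) Z (fx S) (dg D 0) (Nat.shiftRight D 8) R B
        (fnB S)) = true := c6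
    rw [band_iff, ble_iff] at c7
    obtain ⟨r, hr⟩ : ∃ r, fr S = r + 1 := ⟨fr S - 1, by omega⟩
    rw [hr]
    exact vc_sound _ _ _ _ _ hI c7.2
  | 1 => exact chk1_sound hT hn hI c6
  | 2 => exact chk2_sound hT hn hI c6
  | k + 3 => exact chk3_sound hT hn hI c6

/-- all entries are good -/
theorem all_good {T : ℕ → ℕ} {N : ℕ} (h : ∀ j, j < N → ∃ pd, chk T j pd = true) :
    ∀ j, j < N → GoodE (T j) := by
  intro j
  induction j using Nat.strong_induction_on with
  | _ j ih =>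
    intro hj
    obtain ⟨pd, hpd⟩ := h j hj
    exact chk_sound (fun k hk => ih k hk (by omega)) hpd

/-- an entry for the empty position -/
theorem root_sound {S n : ℕ} (h : GoodE S) (h1 : fr S = 6) (h2 : fnR S = 0)
    (h3 : fnB S = 0) (hm : fm S = 0) (hn : 20 ≤ n) :
    Wn 6 (∅ : Set (Sym2 (Fin n))) ∅ := by
  obtain ⟨-, -, -, -, hW⟩ := h
  have h5 := hW n hn (fun _ => ⟨0, by omega⟩) (by
    intro i hi
    rw [hm] at hi
    exact absurd hi (Nat.not_lt_zero i)) ∅ (by simp)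
    (fun e he => absurd he (Finset.notMem_empty e)) (fun e he => absurd he (Finset.notMem_empty e))
  rw [h1, h2, h3] at h5
  have e : ∀ D, es (fun _ : ℕ => (⟨0, by omega⟩ : Fin n)) (dec 0 D) = ∅ := by
    intro D
    ext e
    constructor
    · rintro ⟨p, hp, -⟩
      exact absurd hp (List.not_mem_nil)
    · intro he
      exact absurd he (Set.notMem_empty e)
  rw [e, e, Finset.coe_empty, Set.union_empty] at h5
  exact h5

end Pool.Agent.RG4
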