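import Pool.Agent.RG4.Safe

/-!
# Soundness of the certificate checker (MP_2d204b_co), 5: threats
-/

set_option autoImplicit false

namespace Pool.Agent.RG4

theorem bz_of_bit {a : ℕ} (h : ∀ c, ¬ a.testBit c = true) : bz a = true := by
  rw [bz_iff]
  apply Nat.eq_of_testBit_eq
  intro c
  simpa using h c

theorem pair_not_diag {n m : ℕ} {ψ : ℕ → Fin n} (hψ : Set.InjOn ψ {i | i < m}) {i j : ℕ}
    (hi : i < m) (hj : j < m) (hij : i ≠ j) : ¬ (s(ψ i, ψ j)).IsDiag := by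
  rw [Sym2.mk_isDiag_iff]
  exact fun h => hij (inj_on hψ hi hj h)

/-- a threat: P1 claims `e` and threatens to complete a `K_4` with `f` -/
theorem threat_step {n r : ℕ} {R' B' : Set (Sym2 (Fin n))} {e f : Sym2 (Fin n)}
    (he : ¬ e.IsDiag) (her : e ∉ R') (heb : e ∉ B') (hf : ¬ f.IsDiag) (hfr : f ∉ insert e R')
    (hfb : f ∉ B') (hk : K4 (insert f (insert e R')))
    (hsafe : ∀ g, g ∉ insert e R' → ¬ K4 (insert g B'))
    (hc : Wn (r + 1) (insert e R') (insert f B')) : Wn (r + 1) R' B' := by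
  have hB : ¬ K4 B' := fun h => hsafe f hfr (h.mono (Set.subset_insert f B'))
  refine Wn.step he her heb (Wn.win hB hf hfr hfb hk) fun g hg hgr hgb => ?_
  by_cases hgf : g = f
  · rw [hgf]
    exact hc
  · refine Wn.win (hsafe g hgr) hf hfr ?_ hk
    rintro (h | h)
    · exact hgf h.symm
    · exact hfb h

theorem mvok_sound {m R B Z c : ℕ} (hm : m < 15)
    (h : mvok (nth 0 APs m) R B Z (bt c) = true) :
    ∃ i j, i < m ∧ j < m ∧ i ≠ j ∧ c = w i + w j ∧ ¬ R.testBit c = true ∧ ¬ B.testBit c = true ∧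
      Z.testBit c = true := by
  unfold mvok at h
  rw [band_iff, band_iff] at h
  obtain ⟨h1, h2, h3⟩ := h
  have hc : (bt c).testBit c = true := (bt_bit c c).mpr rfl
  obtain ⟨i, j, hij, hj, h4⟩ := (ap_bit hm).mp (sub_bit h1 hc)
  have h5 := no_bit h2 c
  rw [land_bit, lor_bit] at h5
  refine ⟨i, j, by omega, hj, by omega, h4, fun h => h5 ⟨hc, Or.inl h⟩, fun h => h5 ⟨hc, Or.inr h⟩,
    sub_bit h3 hc⟩

theorem comp_sound {n m R B f0 f1 q2 q3 : ℕ} {ψ : ℕ → Fin n} (hm : m < 15)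
    (hψ : Set.InjOn ψ {i | i < m}) (hR : sub R (nth 0 APs m) = true)
    (h : comp (nth 0 WMs m) (nth 0 APs m) R B f0 f1 q2 q3 = true) :
    ∃ i j, i < m ∧ j < m ∧ i ≠ j ∧ f0 + f1 = w i + w j ∧ ¬ R.testBit (f0 + f1) = true ∧
      ¬ B.testBit (f0 + f1) = true ∧ K4 (insert s(ψ i, ψ j) (img m ψ R)) := by
  have h' : band (bz (Nat.land (bt (f0 + f1)) (Nat.lor R B)))
    (band (sub (bt (f0 + f1)) (nth 0 APs m))
    (band (sub (Nat.lor (Nat.lor (bt f0) (bt f1)) (Nat.lor (bt q2) (bt q3))) (nth 0 WMs m))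
     (sub (qm f0 f1 q2 q3) (Nat.lor R (bt (f0 + f1)))))) = true := h
  rw [band_iff, band_iff, band_iff] at h'
  obtain ⟨h1, h2, h3, h4⟩ := h'
  have hc : (bt (f0 + f1)).testBit (f0 + f1) = true := (bt_bit _ _).mpr rfl
  have hw : ∀ v, v = f0 ∨ v = f1 ∨ v = q2 ∨ v = q3 → ∃ i, i < m ∧ v = w i := by
    intro v hv
    rw [← wm_bit hm]
    apply sub_bit h3
    rw [lor_bit, lor_bit, lor_bit, bt_bit, bt_bit, bt_bit, bt_bit]
    rcases hv with h | h | h | h
    · exact Or.inl (Or.inl h.symm)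
    · exact Or.inl (Or.inr h.symm)
    · exact Or.inr (Or.inl h.symm)
    · exact Or.inr (Or.inr h.symm)
  obtain ⟨i0, hi0, e0⟩ := hw f0 (Or.inl rfl)
  obtain ⟨i1, hi1, e1⟩ := hw f1 (Or.inr (Or.inl rfl))
  obtain ⟨i2, hi2, e2⟩ := hw q2 (Or.inr (Or.inr (Or.inl rfl)))
  obtain ⟨i3, hi3, e3⟩ := hw q3 (Or.inr (Or.inr (Or.inr rfl)))
  have hap := sub_bit h2 hc
  -- the six codes
  have hcode : ∀ c, (qm f0 f1 q2 q3).testBit c = true →
      (R.testBit c = true ∨ f0 + f1 = c) ∧ (nth 0 APs m).testBit c = true := by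
    intro c hc
    have h5 := sub_bit h4 hc
    rw [lor_bit, bt_bit] at h5
    refine ⟨h5, ?_⟩
    rcases h5 with h5 | h5
    · exact sub_bit hR h5
    · rw [← h5]
      exact hap
  have hpair : ∀ i j, i < m → j < m → (qm f0 f1 q2 q3).testBit (w i + w j) = true →
      i ≠ j ∧ s(ψ i, ψ j) ∈ insert s(ψ i0, ψ i1) (img m ψ R) := by
    intro i j hi hj hq
    obtain ⟨h5, h6⟩ := hcode _ hq
    rw [ap_bit_iff hm (by omega) (by omega)] at h6
    refine ⟨h6.2.2, ?_⟩
    rcases h5 with h5 | h5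
    · exact Or.inr ((mem_img hψ hi hj h6.2.2).mpr h5)
    · rw [e0, e1] at h5
      left
      rcases w_sum (by omega) (by omega) (by omega) (by omega) h5 with ⟨h7, h8⟩ | ⟨h7, h8⟩
      · rw [h7, h8]
      · rw [h7, h8]
        exact Sym2.eq_swap
  have q01 := hpair i0 i1 hi0 hi1 (by rw [qm_bit, e0, e1, e2, e3]; tauto)
  have q02 := hpair i0 i2 hi0 hi2 (by rw [qm_bit, e0, e1, e2, e3]; tauto)
  have q03 := hpair i0 i3 hi0 hi3 (by rw [qm_bit, e0, e1, e2, e3]; tauto)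
  have q12 := hpair i1 i2 hi1 hi2 (by rw [qm_bit, e0, e1, e2, e3]; tauto)
  have q13 := hpair i1 i3 hi1 hi3 (by rw [qm_bit, e0, e1, e2, e3]; tauto)
  have q23 := hpair i2 i3 hi2 hi3 (by rw [qm_bit, e0, e1, e2, e3]; tauto)
  have h5 := no_bit h1 (f0 + f1)
  rw [land_bit, lor_bit] at h5
  refine ⟨i0, i1, hi0, hi1, q01.1, by rw [e0, e1], fun h => h5 ⟨hc, Or.inl h⟩,
    fun h => h5 ⟨hc, Or.inr h⟩, ?_⟩
  refine ⟨fun a => ψ (![i0, i1, i2, i3] a), ?_, ?_⟩
  · have hinj : Function.Injective (![i0, i1, i2, i3] : Fin 4 → ℕ) := by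
      intro a b hab
      have n01 := q01.1
      have n02 := q02.1
      have n03 := q03.1
      have n12 := q12.1
      have n13 := q13.1
      have n23 := q23.1
      fin_cases a <;> fin_cases b <;> simp_all
    intro a b hab
    apply hinj
    have hlt : ∀ a : Fin 4, (![i0, i1, i2, i3] : Fin 4 → ℕ) a < m := by
      intro a
      fin_cases a <;> simpa
    exact inj_on hψ (hlt a) (hlt b) hab
  · intro a b hab
    have sw : ∀ {u v : Fin n}, s(u, v) ∈ insert s(ψ i0, ψ i1) (img m ψ R) →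
        s(v, u) ∈ insert s(ψ i0, ψ i1) (img m ψ R) := by
      intro u v h
      have e : s(v, u) = s(u, v) := Sym2.eq_swap
      rw [e]
      exact h
    fin_cases a <;> fin_cases b
    · exact absurd rfl hab
    · exact q01.2
    · exact q02.2
    · exact q03.2
    · exact sw q01.2
    · exact absurd rfl hab
    · exact q12.2
    · exact q13.2
    · exact sw q02.2
    · exact sw q12.2
    · exact absurd rfl hab
    · exact q23.2
    · exact sw q03.2
    · exact sw q13.2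
    · exact sw q23.2
    · exact absurd rfl hab

/-- the invariants of a position with hidden edges -/
structure Inv {n : ℕ} (m x nb : ℕ) (ψ : ℕ → Fin n) (X : Finset (Sym2 (Fin n))) (R B Z : ℕ) :
    Prop where
  hm : m < 13
  hx : x ≤ 3
  hψ : Set.InjOn ψ {i | i < m}
  hX : X.card ≤ x
  hR : sub R (nth 0 APs m) = true
  hB : sub B (nth 0 APs m) = true
  hRB : bz (Nat.land R B) = true
  hXR : ∀ e ∈ X, e ∉ img m ψ R
  hXZ : ∀ e ∈ X, e ∉ img m ψ Z
  hnb : ∃ F : Finset (Sym2 (Fin n)), F.card ≤ nb ∧ img m ψ B ⊆ ↑F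

theorem sub_lor_bt {A c M : ℕ} (h : sub A M = true) (hc : M.testBit c = true) :
    sub (Nat.lor A (bt c)) M = true := by
  apply sub_of_bit
  intro d hd
  rw [lor_bit, bt_bit] at hd
  rcases hd with hd | hd
  · exact sub_bit h hd
  · rw [← hd]
    exact hc

/-- after a red move in the zone -/
theorem Inv.red {n m x nb : ℕ} {ψ : ℕ → Fin n} {X : Finset (Sym2 (Fin n))} {R B Z : ℕ}
    (h : Inv m x nb ψ X R B Z) {i j : ℕ} (hi : i < m) (hj : j < m) (hij : i ≠ j)
    (hb : ¬ B.testBit (w i + w j) = true) (hz : Z.testBit (w i + w j) = true) :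
    Inv m x nb ψ X (Nat.lor R (bt (w i + w j))) B Z where
  hm := h.hm
  hx := h.hx
  hψ := h.hψ
  hX := h.hX
  hR := sub_lor_bt h.hR (ap_bit_of (by have := h.hm; omega) hi hj hij)
  hB := h.hB
  hRB := by
    apply bz_of_bit
    intro c hc
    rw [land_bit, lor_bit, bt_bit] at hc
    rcases hc.1 with h1 | h1
    · exact no_bit h.hRB c ((land_bit _ _ _).mpr ⟨h1, hc.2⟩)
    · rw [h1] at hb
      exact hb hc.2
  hXR := by
    intro e he
    rw [img_insert (by have := h.hm; omega) hi hj hij]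
    rintro (h1 | h1)
    · apply h.hXZ e he
      rw [h1]
      exact (mem_img h.hψ hi hj hij).mpr hz
    · exact h.hXR e he h1
  hXZ := h.hXZ
  hnb := h.hnb

/-- after a blue move -/
theorem Inv.blue {n m x nb : ℕ} {ψ : ℕ → Fin n} {X : Finset (Sym2 (Fin n))} {R B Z : ℕ}
    (h : Inv m x nb ψ X R B Z) {i j : ℕ} (hi : i < m) (hj : j < m) (hij : i ≠ j)
    (hr : ¬ R.testBit (w i + w j) = true) :
    Inv m x (nb + 1) ψ X R (Nat.lor B (bt (w i + w j))) Z where
  hm := h.hm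
  hx := h.hx
  hψ := h.hψ
  hX := h.hX
  hR := h.hR
  hB := sub_lor_bt h.hB (ap_bit_of (by have := h.hm; omega) hi hj hij)
  hRB := by
    apply bz_of_bit
    intro c hc
    rw [land_bit, lor_bit, bt_bit] at hc
    rcases hc.2 with h1 | h1
    · exact no_bit h.hRB c ((land_bit _ _ _).mpr ⟨hc.1, h1⟩)
    · rw [h1] at hr
      exact hr hc.1
  hXR := h.hXR
  hXZ := h.hXZ
  hnb := by
    classical
    obtain ⟨F, hF, hBF⟩ := h.hnb
    refine ⟨insert s(ψ i, ψ j) F, ?_, ?_⟩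
    · have := Finset.card_insert_le s(ψ i, ψ j) F
      omega
    · rw [img_insert (by have := h.hm; omega) hi hj hij, Finset.coe_insert]
      exact Set.insert_subset_insert hBF

theorem Inv.safe {n m x nb : ℕ} {ψ : ℕ → Fin n} {X : Finset (Sym2 (Fin n))} {R B Z : ℕ}
    (h : Inv m x nb ψ X R B Z)
    (hs : safe (nth [] QLs m) (nth [] TLs m) x nb R B Z = true) (g : Sym2 (Fin n))
    (hg : g ∉ img m ψ R) : ¬ K4 (insert g (img m ψ B ∪ ↑X)) :=
  safe_sound h.hm h.hx h.hψ h.hRB h.hX h.hXR h.hXZ h.hnb hs hg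

/-- an edge in the zone which is not blue is free -/
theorem Inv.free {n m x nb : ℕ} {ψ : ℕ → Fin n} {X : Finset (Sym2 (Fin n))} {R B Z : ℕ}
    (h : Inv m x nb ψ X R B Z) {i j : ℕ} (hi : i < m) (hj : j < m) (hij : i ≠ j)
    (hb : ¬ B.testBit (w i + w j) = true) (hz : Z.testBit (w i + w j) = true) :
    s(ψ i, ψ j) ∉ img m ψ B ∪ ↑X := by
  rintro (h1 | h1)
  · exact hb ((mem_img h.hψ hi hj hij).mp h1)
  · exact h.hXZ _ h1 ((mem_img h.hψ hi hj hij).mpr hz)

/-- one threat of P1 with the checks of the checker -/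
theorem Inv.threat {n m x nb r : ℕ} {ψ : ℕ → Fin n} {X : Finset (Sym2 (Fin n))} {R B Z : ℕ}
    (h : Inv m x nb ψ X R B Z) {c f0 f1 q2 q3 : ℕ}
    (hmv : mvok (nth 0 APs m) R B Z (bt c) = true) (hfz : Z.testBit (f0 + f1) = true)
    (hcm : comp (nth 0 WMs m) (nth 0 APs m) (Nat.lor R (bt c)) B f0 f1 q2 q3 = true)
    (hs : RG4.safe (nth [] QLs m) (nth [] TLs m) x nb (Nat.lor R (bt c)) B Z = true)
    (hc : ∀ i j, i < m → j < m → i ≠ j → f0 + f1 = w i + w j →
      Inv m x nb ψ X (Nat.lor R (bt c)) B Z →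
      Inv m x (nb + 1) ψ X (Nat.lor R (bt c)) (Nat.lor B (bt (f0 + f1))) Z →
      Wn (r + 1) (img m ψ (Nat.lor R (bt c))) (insert s(ψ i, ψ j) (img m ψ B ∪ ↑X))) :
    Wn (r + 1) (img m ψ R) (img m ψ B ∪ ↑X) := by
  have hm := h.hm
  obtain ⟨i, j, hi, hj, hij, rfl, h1, h2, h3⟩ := mvok_sound (by omega) hmv
  have hR' := h.red hi hj hij h2 h3
  obtain ⟨k, l, hk, hl, hkl, h4, h5, h6, h7⟩ := comp_sound (by omega) h.hψ hR'.hR hcm
  rw [h4] at h5 h6 hfz
  have hins := img_insert (ψ := ψ) (A := R) (by omega : m < 15) hi hj hij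
  have hB' := hR'.blue hk hl hkl h5
  have hc' := hc k l hk hl hkl h4 hR' (by rw [h4]; exact hB')
  rw [hins] at hc' h7
  refine threat_step (e := s(ψ i, ψ j)) (f := s(ψ k, ψ l)) (pair_not_diag h.hψ hi hj hij) ?_
    (h.free hi hj hij h2 h3) (pair_not_diag h.hψ hk hl hkl) ?_ (hR'.free hk hl hkl h6 hfz) h7 ?_ hc'
  · rw [mem_img h.hψ hi hj hij]
    exact h1
  · rw [← hins, mem_img h.hψ hk hl hkl]
    exact h5
  · intro g hg
    rw [← hins] at hg
    exact hR'.safe hs g hg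

theorem vc_sound {n m x r : ℕ} {ψ : ℕ → Fin n} {X : Finset (Sym2 (Fin n))} {Z : ℕ} (k : ℕ) :
    ∀ D R B nb : ℕ, Inv m x nb ψ X R B Z →
      vc (nth [] QLs m) (nth [] TLs m) (nth 0 WMs m) (nth 0 APs m) Z x k D R B nb = true →
      Wn (r + 1) (img m ψ R) (img m ψ B ∪ ↑X) := by
  induction k with
  | zero =>
    intro D R B nb h hv
    have hv' : band (mvok (nth 0 APs m) R B Z (bt (dg D 0 + dg D 8)))
     (band (sub (Nat.lor (bt (dg D 16 + dg D 24)) (bt (dg D 48 + dg D 56))) Z)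
     (band (comp (nth 0 WMs m) (nth 0 APs m) (Nat.lor R (bt (dg D 0 + dg D 8))) B
        (dg D 16) (dg D 24) (dg D 32) (dg D 40))
     (band (comp (nth 0 WMs m) (nth 0 APs m) (Nat.lor R (bt (dg D 0 + dg D 8))) B
        (dg D 48) (dg D 56) (dg D 64) (dg D 72))
     (band (bnot (Nat.beq (bt (dg D 16 + dg D 24)) (bt (dg D 48 + dg D 56))))
     (RG4.safe (nth [] QLs m) (nth [] TLs m) x nb (Nat.lor R (bt (dg D 0 + dg D 8))) B Z))))) = true
      := hv
    rw [band_iff, band_iff, band_iff, band_iff, band_iff, bnot_iff, beq_iff_false] at hv'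
    obtain ⟨h1, h2, h3, h4, h5, h6⟩ := hv'
    have z1 : Z.testBit (dg D 16 + dg D 24) = true :=
      sub_bit h2 ((lor_bit _ _ _).mpr (Or.inl ((bt_bit _ _).mpr rfl)))
    have z2 : Z.testBit (dg D 48 + dg D 56) = true :=
      sub_bit h2 ((lor_bit _ _ _).mpr (Or.inr ((bt_bit _ _).mpr rfl)))
    refine h.threat h1 z1 h3 h6 fun i j hi hj hij hc hR' hB' => ?_
    have hm := h.hm
    obtain ⟨k, l, hk, hl, hkl, h7, h8, h9, h10⟩ := comp_sound (by omega) h.hψ hR'.hR h4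
    rw [h7] at h8 h9 z2
    have hne : s(ψ k, ψ l) ≠ s(ψ i, ψ j) := by
      intro he
      apply h5
      rw [h7, hc]
      rcases edge_eq h.hψ hk hl hi hj he with ⟨e1, e2⟩ | ⟨e1, e2⟩
      · rw [e1, e2]
      · rw [e1, e2, Nat.add_comm]
    have hnr : s(ψ i, ψ j) ∉ img m ψ (Nat.lor R (bt (dg D 0 + dg D 8))) := by
      rw [mem_img h.hψ hi hj hij]
      intro h11
      have h12 := no_bit hB'.hRB (w i + w j)
      rw [land_bit, lor_bit B, bt_bit (dg D 16 + dg D 24)] at h12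
      exact h12 ⟨h11, Or.inr hc⟩
    refine Wn.win (hR'.safe h6 _ hnr) (pair_not_diag h.hψ hk hl hkl) ?_ ?_ h10
    · rw [mem_img h.hψ hk hl hkl]
      exact h8
    · rintro (h11 | h11)
      · exact hne h11
      · exact hR'.free hk hl hkl h9 z2 h11
  | succ k ih =>
    intro D R B nb h hv
    have hv' : band (mvok (nth 0 APs m) R B Z (bt (dg D 0 + dg D 8)))
     (band (sub (bt (dg D 16 + dg D 24)) Z)
     (band (comp (nth 0 WMs m) (nth 0 APs m) (Nat.lor R (bt (dg D 0 + dg D 8))) B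
        (dg D 16) (dg D 24) (dg D 32) (dg D 40))
     (band (RG4.safe (nth [] QLs m) (nth [] TLs m) x nb (Nat.lor R (bt (dg D 0 + dg D 8))) B Z)
     (vc (nth [] QLs m) (nth [] TLs m) (nth 0 WMs m) (nth 0 APs m) Z x k (Nat.shiftRight D 48)
       (Nat.lor R (bt (dg D 0 + dg D 8))) (Nat.lor B (bt (dg D 16 + dg D 24))) (nb + 1)))))
      = true := hv
    rw [band_iff, band_iff, band_iff, band_iff] at hv'
    obtain ⟨h1, h2, h3, h4, h5⟩ := hv'
    have z1 : Z.testBit (dg D 16 + dg D 24) = true := sub_bit h2 ((bt_bit _ _).mpr rfl)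
    refine h.threat h1 z1 h3 h4 fun i j hi hj hij hc hR' hB' => ?_
    have hm := h.hm
    have h6 := ih _ _ _ _ hB' h5
    rw [hc, img_insert (by omega) hi hj hij, Set.insert_union] at h6
    exact h6

end Pool.Agent.RG4
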