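import Pool.Agent.RG4.Sem

/-!
# Soundness of the certificate checker (MP_2d204b_co), 2: weights and tables
-/

set_option autoImplicit false
set_option maxRecDepth 100000

namespace Pool.Agent.RG4

/-- the weights of the labels -/
def wl : List ℕ := [0, 4, 6, 20, 35, 52, 59, 77, 78, 86, 89, 99, 122, 127]

/-- the weight of the label `i` -/
def w (i : ℕ) : ℕ := wl.getD i 0

/-- the mask with the given codes -/
def mk (l : List ℕ) : ℕ := l.foldr (fun c acc => Nat.lor (bt c) acc) 0

theorem mk_bit (l : List ℕ) (c : ℕ) : (mk l).testBit c = true ↔ c ∈ l := by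
  induction l with
  | nil => simp [mk]
  | cons a l ih =>
    have h : mk (a :: l) = Nat.lor (bt a) (mk l) := rfl
    rw [h, lor_bit, bt_bit, ih, List.mem_cons]
    constructor
    · rintro (h | h)
      · exact Or.inl h.symm
      · exact Or.inr h
    · rintro (h | h)
      · exact Or.inl h.symm
      · exact Or.inr h

def apL (m : ℕ) : List ℕ := (List.range m).flatMap fun j => (List.range j).map fun i => w i + w j
def wmL (m : ℕ) : List ℕ := (List.range m).map w
def vmL (m : ℕ) : List ℕ := (List.range m).map fun i => 8 * i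
def frL (m : ℕ) : List ℕ := apL m ++ ((List.range m).map (fun i => w i + w m) ++ [w m + w (m + 1)])
def qlL (m : ℕ) : List ℕ := (List.range m).flatMap fun d => (List.range d).flatMap fun c =>
  (List.range c).flatMap fun b => (List.range b).map fun a => qm (w a) (w b) (w c) (w d)
def tlL (m : ℕ) : List ℕ := (List.range m).flatMap fun c =>
  (List.range c).flatMap fun b => (List.range b).map fun a => tm (w a) (w b) (w c)

theorem ap_spec : ∀ m < 15, nth 0 APs m = mk (apL m) := by decide +kernel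
theorem wm_spec : ∀ m < 15, nth 0 WMs m = mk (wmL m) := by decide +kernel
theorem vm_spec : ∀ m < 15, nth 0 VMs m = mk (vmL m) := by decide +kernel
theorem fr_spec : ∀ m < 13, nth 0 FRs m = mk (frL m) := by decide +kernel
theorem ql_spec : ∀ m < 13, nth [] QLs m = qlL m := by decide +kernel
theorem tl_spec : ∀ m < 13, nth [] TLs m = tlL m := by decide +kernel
theorem w0_spec : ∀ i < 14, dg W0 (8 * i) = w i := by decide +kernel

theorem w_sum_aux : ((List.range 14).all fun i => (List.range 14).all fun j =>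
    (List.range 14).all fun k => (List.range 14).all fun l =>
      bor (bnot (Nat.beq (w i + w j) (w k + w l)))
        (bor (band (Nat.beq i k) (Nat.beq j l)) (band (Nat.beq i l) (Nat.beq j k)))) = true := by
  decide +kernel

/-- the weights form a Sidon set -/
theorem w_sum {i j k l : ℕ} (hi : i < 14) (hj : j < 14) (hk : k < 14) (hl : l < 14)
    (h : w i + w j = w k + w l) : (i = k ∧ j = l) ∨ (i = l ∧ j = k) := by
  have h1 := w_sum_aux
  rw [List.all_eq_true] at h1
  have h2 := h1 i (List.mem_range.mpr hi)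
  rw [List.all_eq_true] at h2
  have h3 := h2 j (List.mem_range.mpr hj)
  rw [List.all_eq_true] at h3
  have h4 := h3 k (List.mem_range.mpr hk)
  rw [List.all_eq_true] at h4
  have h5 := h4 l (List.mem_range.mpr hl)
  rw [bor_iff, bor_iff, band_iff, band_iff, bnot_iff, beq_iff_false, beq_iff, beq_iff, beq_iff,
    beq_iff] at h5
  rcases h5 with h5 | h5
  · exact absurd h h5
  · exact h5

/-- the label of a weight is unique -/
theorem w_inj {i j : ℕ} (hi : i < 14) (hj : j < 14) (h : w i = w j) : i = j := by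
  have h1 : w i + w i = w j + w j := by rw [h]
  rcases w_sum hi hi hj hj h1 with h2 | h2 <;> exact h2.1

theorem ap_bit {m c : ℕ} (hm : m < 15) : (nth 0 APs m).testBit c = true ↔
    ∃ i j, i < j ∧ j < m ∧ c = w i + w j := by
  rw [ap_spec m hm, mk_bit]
  unfold apL
  rw [List.mem_flatMap]
  constructor
  · rintro ⟨j, hj, h⟩
    rw [List.mem_map] at h
    obtain ⟨i, hi, rfl⟩ := h
    exact ⟨i, j, List.mem_range.mp hi, List.mem_range.mp hj, rfl⟩
  · rintro ⟨i, j, hij, hj, rfl⟩
    exact ⟨j, List.mem_range.mpr hj, List.mem_map.mpr ⟨i, List.mem_range.mpr hij, rfl⟩⟩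

theorem ap_bit_of {m i j : ℕ} (hm : m < 15) (hi : i < m) (hj : j < m) (hij : i ≠ j) :
    (nth 0 APs m).testBit (w i + w j) = true := by
  rw [ap_bit hm]
  rcases Nat.lt_or_gt_of_ne hij with h | h
  · exact ⟨i, j, h, hj, rfl⟩
  · exact ⟨j, i, h, hi, Nat.add_comm _ _⟩

theorem ap_bit_iff {m i j : ℕ} (hm : m < 15) (hi : i < 14) (hj : j < 14) :
    (nth 0 APs m).testBit (w i + w j) = true ↔ i < m ∧ j < m ∧ i ≠ j := by
  constructor
  · intro h
    rw [ap_bit hm] at h
    obtain ⟨k, l, hkl, hl, h1⟩ := h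
    rcases w_sum hi hj (by omega) (by omega) h1 with ⟨h2, h3⟩ | ⟨h2, h3⟩
    · subst h2 h3
      exact ⟨by omega, hl, by omega⟩
    · subst h2 h3
      exact ⟨hl, by omega, by omega⟩
  · rintro ⟨h1, h2, h3⟩
    exact ap_bit_of hm h1 h2 h3

theorem wm_bit {m c : ℕ} (hm : m < 15) : (nth 0 WMs m).testBit c = true ↔ ∃ i, i < m ∧ c = w i := by
  rw [wm_spec m hm, mk_bit]
  unfold wmL
  rw [List.mem_map]
  constructor
  · rintro ⟨i, hi, rfl⟩
    exact ⟨i, List.mem_range.mp hi, rfl⟩
  · rintro ⟨i, hi, rfl⟩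
    exact ⟨i, List.mem_range.mpr hi, rfl⟩

theorem vm_bit {m c : ℕ} (hm : m < 15) : (nth 0 VMs m).testBit c = true ↔ ∃ i, i < m ∧ c = 8 * i := by
  rw [vm_spec m hm, mk_bit]
  unfold vmL
  rw [List.mem_map]
  constructor
  · rintro ⟨i, hi, rfl⟩
    exact ⟨i, List.mem_range.mp hi, rfl⟩
  · rintro ⟨i, hi, rfl⟩
    exact ⟨i, List.mem_range.mpr hi, rfl⟩

theorem fr_bit1 {m i j : ℕ} (hm : m < 13) (hi : i < m) (hj : j < m) (hij : i ≠ j) :
    (nth 0 FRs m).testBit (w i + w j) = true := by
  rw [fr_spec m hm, mk_bit]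
  unfold frL
  rw [List.mem_append]
  left
  have := ap_bit_of (by omega : m < 15) hi hj hij
  rw [ap_spec m (by omega), mk_bit] at this
  exact this

theorem fr_bit2 {m i : ℕ} (hm : m < 13) (hi : i < m) : (nth 0 FRs m).testBit (w i + w m) = true := by
  rw [fr_spec m hm, mk_bit]
  unfold frL
  rw [List.mem_append, List.mem_append]
  right
  left
  exact List.mem_map.mpr ⟨i, List.mem_range.mpr hi, rfl⟩

theorem fr_bit3 {m : ℕ} (hm : m < 13) : (nth 0 FRs m).testBit (w m + w (m + 1)) = true := by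
  rw [fr_spec m hm, mk_bit]
  unfold frL
  rw [List.mem_append, List.mem_append]
  right
  right
  exact List.mem_singleton_self _

theorem ql_mem {m a b c d : ℕ} (hm : m < 13) (h1 : a < b) (h2 : b < c) (h3 : c < d) (h4 : d < m) :
    qm (w a) (w b) (w c) (w d) ∈ nth [] QLs m := by
  rw [ql_spec m hm]
  unfold qlL
  rw [List.mem_flatMap]
  refine ⟨d, List.mem_range.mpr h4, ?_⟩
  rw [List.mem_flatMap]
  refine ⟨c, List.mem_range.mpr h3, ?_⟩
  rw [List.mem_flatMap]
  refine ⟨b, List.mem_range.mpr h2, ?_⟩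
  rw [List.mem_map]
  exact ⟨a, List.mem_range.mpr h1, rfl⟩

theorem tl_mem {m a b c : ℕ} (hm : m < 13) (h1 : a < b) (h2 : b < c) (h3 : c < m) :
    tm (w a) (w b) (w c) ∈ nth [] TLs m := by
  rw [tl_spec m hm]
  unfold tlL
  rw [List.mem_flatMap]
  refine ⟨c, List.mem_range.mpr h3, ?_⟩
  rw [List.mem_flatMap]
  refine ⟨b, List.mem_range.mpr h2, ?_⟩
  rw [List.mem_map]
  exact ⟨a, List.mem_range.mpr h1, rfl⟩

theorem qm_bit (a b c d e : ℕ) : (qm a b c d).testBit e = true ↔
    e = a + b ∨ e = a + c ∨ e = a + d ∨ e = b + c ∨ e = b + d ∨ e = c + d := by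
  unfold qm
  simp only [lor_bit, bt_bit]
  show ((a + b = e ∨ a + c = e) ∨ a + d = e ∨ b + c = e) ∨ b + d = e ∨ c + d = e ↔ _
  constructor
  · rintro (((h | h) | h | h) | h | h) <;> simp [← h]
  · rintro (h | h | h | h | h | h) <;> simp [h]

theorem tm_bit (a b c e : ℕ) : (tm a b c).testBit e = true ↔
    e = a + b ∨ e = a + c ∨ e = b + c := by
  unfold tm
  simp only [lor_bit, bt_bit]
  show (a + b = e ∨ a + c = e ∨ b + c = e) ↔ _
  constructor
  · rintro (h | h | h) <;> simp [← h]
  · rintro (h | h | h) <;> simp [h]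

end Pool.Agent.RG4
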